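import Pool.Agent.Lib.MP_23961f_co.DP.Defs

/-!
A graph with back-degrees at most `k` can be emptied by `2 k` rounds.
-/

set_option autoImplicit false

namespace Pool.Agent.Lib.MP_23961f_co.DP

open Pool.Agent.Lib.MP_23961f_co.K

section

variable {V : Type} [Fintype V]

open Classical in
/-- the earlier neighbours -/
noncomputable def bk (Γ : SimpleGraph V) (o : V → ℕ) (v : V) : Finset V :=
  Finset.univ.filter (fun w => Γ.Adj v w ∧ o w < o v)

theorem mem_bk {Γ : SimpleGraph V} {o : V → ℕ} {v w : V} :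
    w ∈ bk Γ o v ↔ Γ.Adj v w ∧ o w < o v := by
  unfold bk
  simp

open Classical in
/-- the list of the elements of `I`, ordered by `o` -/
noncomputable def srt (o : V → ℕ) (I : Finset V) : List V :=
  I.toList.insertionSort (fun a b => o a ≤ o b)

theorem mem_srt {o : V → ℕ} {I : Finset V} {v : V} : v ∈ srt o I ↔ v ∈ I := by
  unfold srt
  rw [List.mem_insertionSort, Finset.mem_toList]

omit [Fintype V] in
theorem deg_srt_pairwise (o : V → ℕ) (I : Finset V) :
    (srt o I).Pairwise (fun a b => o a ≤ o b) := by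
  classical
  have : Std.Total (fun a b : V => o a ≤ o b) := ⟨fun a b => le_total _ _⟩
  have : IsTrans V (fun a b : V => o a ≤ o b) := ⟨fun a b c h h' => le_trans h h'⟩
  exact List.pairwise_insertionSort _ _

theorem bk_round_le (Γ : SimpleGraph V) (o : V → ℕ) (I : List V) (w : V) :
    (bk (roundL Γ I) o w).card ≤ (bk Γ o w).card := by
  refine Finset.card_le_card ?_
  intro v hv
  obtain ⟨h1, h2⟩ := mem_bk.1 hv
  exact mem_bk.2 ⟨h1.1, h2⟩

/-- A round along a sorted independent set deletes a back edge of every vertex with an earlier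
neighbour in the set. -/
theorem bk_round {Γ : SimpleGraph V} {o : V → ℕ} {I : Finset V} {w a : V} (ha : a ∈ I)
    (haw : Γ.Adj w a) (hoa : o a < o w) :
    (bk (roundL Γ (srt o I)) o w).card + 1 ≤ (bk Γ o w).card := by
  classical
  have ha' : a ∈ srt o I := mem_srt.2 ha
  obtain ⟨k, hk⟩ := fst_isSome (G := Γ) ha' haw
  have hkI := (fst_eq_some hk).1
  have hkw := (fst_eq_some hk).2
  have hle : o k ≤ o a := by
    by_cases hka : a = k
    · rw [hka]
    · have h4 := fst_first hk ha' haw hka
      have h5 := List.pairwise_iff_getElem.1 (deg_srt_pairwise o I) ((srt o I).idxOf k)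
        ((srt o I).idxOf a) (List.idxOf_lt_length_iff.2 hkI) (List.idxOf_lt_length_iff.2 ha') h4
      rwa [List.getElem_idxOf, List.getElem_idxOf] at h5
  have hkb : k ∈ bk Γ o w := mem_bk.2 ⟨hkw, lt_of_le_of_lt hle hoa⟩
  have hsub : bk (roundL Γ (srt o I)) o w ⊆ (bk Γ o w).erase k := by
    intro v hv
    obtain ⟨h1, h2⟩ := mem_bk.1 hv
    refine Finset.mem_erase.2 ⟨?_, mem_bk.2 ⟨h1.1, h2⟩⟩
    rintro rfl
    exact h1.2.1 hk
  have h3 := Finset.card_le_card hsub
  have h4 := Finset.card_erase_add_one hkb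
  omega

/-- the greedy maximal independent set along an order -/
theorem exists_greedy (Γ : SimpleGraph V) (o : V → ℕ) (ho : Function.Injective o) :
    ∃ I : Finset V, (∀ a ∈ I, ∀ b ∈ I, ¬ Γ.Adj a b) ∧
      ∀ v, v ∉ I → ∃ a ∈ I, Γ.Adj v a ∧ o a < o v := by
  classical
  have key : ∀ m : ℕ, ∃ I : Finset V, (∀ a ∈ I, o a < m) ∧ (∀ a ∈ I, ∀ b ∈ I, ¬ Γ.Adj a b) ∧
      ∀ v, o v < m → v ∉ I → ∃ a ∈ I, Γ.Adj v a ∧ o a < o v := by
    intro m
    induction m with
    | zero =>
      exact ⟨∅, fun a ha => absurd ha (Finset.notMem_empty _),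
        fun a ha => absurd ha (Finset.notMem_empty _), fun v hv => absurd hv (Nat.not_lt_zero _)⟩
    | succ m ih =>
      obtain ⟨I, h1, h2, h3⟩ := ih
      by_cases h : ∃ v, o v = m ∧ ∀ a ∈ I, ¬ Γ.Adj v a
      · obtain ⟨v, hv, hvI⟩ := h
        refine ⟨insert v I, ?_, ?_, ?_⟩
        · intro a ha
          rcases Finset.mem_insert.1 ha with rfl | ha
          · omega
          · have := h1 a ha
            omega
        · intro a ha b hb
          rcases Finset.mem_insert.1 ha with rfl | ha'
          · rcases Finset.mem_insert.1 hb with rfl | hb'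
            · exact fun h => h.ne rfl
            · exact hvI b hb'
          · rcases Finset.mem_insert.1 hb with rfl | hb'
            · exact fun h => hvI a ha' h.symm
            · exact h2 a ha' b hb'
        · intro u hu huI
          have huv : u ≠ v := fun h => huI (h ▸ Finset.mem_insert_self _ _)
          have huI' : u ∉ I := fun h => huI (Finset.mem_insert_of_mem h)
          have hum : o u < m := by
            have : o u ≠ o v := fun h => huv (ho h)
            omega
          obtain ⟨a, ha, h4⟩ := h3 u hum huI'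
          exact ⟨a, Finset.mem_insert_of_mem ha, h4⟩
      · push Not at h
        refine ⟨I, fun a ha => (h1 a ha).trans (Nat.lt_succ_self _), h2, ?_⟩
        intro u hu huI
        rcases Nat.lt_succ_iff_lt_or_eq.1 hu with h4 | h4
        · exact h3 u h4 huI
        · obtain ⟨a, ha, h5⟩ := h u h4
          exact ⟨a, ha, h5, by rw [h4]; exact h1 a ha⟩
  obtain ⟨I, _, h2, h3⟩ := key (Finset.univ.sup o + 1)
  exact ⟨I, h2, fun v hv => h3 v (Nat.lt_succ_of_le (Finset.le_sup (Finset.mem_univ v))) hv⟩

theorem deg_kill_aux {o : V → ℕ} (ho : Function.Injective o) : ∀ (r : ℕ) (Γ : SimpleGraph V),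
    (∀ w u, Γ.Adj w u → o u < o w → (bk Γ o w).card + (bk Γ o u).card ≤ r) → Kill r Γ := by
  intro r
  induction r with
  | zero =>
    intro Γ h v w hvw
    rcases lt_trichotomy (o v) (o w) with h1 | h1 | h1
    · have h2 := h w v hvw.symm h1
      have h3 : 0 < (bk Γ o w).card := Finset.card_pos.2 ⟨v, mem_bk.2 ⟨hvw.symm, h1⟩⟩
      omega
    · exact hvw.ne (ho h1)
    · have h2 := h v w hvw h1
      have h3 : 0 < (bk Γ o v).card := Finset.card_pos.2 ⟨w, mem_bk.2 ⟨hvw, h1⟩⟩
      omega
  | succ r ih =>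
    intro Γ h
    obtain ⟨I, h1, h2⟩ := exists_greedy Γ o ho
    refine ⟨srt o I, ?_, ih _ ?_⟩
    · refine List.pairwise_of_forall_mem_list (r := fun a b => ¬ Γ.Adj a b) ?_
      intro a ha b hb
      exact h1 a (mem_srt.1 ha) b (mem_srt.1 hb)
    · intro w u hwu huw
      have h3 := h w u hwu.1 huw
      have h4 := bk_round_le Γ o (srt o I) w
      have h5 := bk_round_le Γ o (srt o I) u
      by_cases hw : w ∈ I
      · have hu : u ∉ I := fun hu => h1 w hw u hu hwu.1
        obtain ⟨a, ha, hua, hoa⟩ := h2 u hu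
        have h6 := bk_round (I := I) ha hua hoa
        omega
      · obtain ⟨a, ha, hwa, hoa⟩ := h2 w hw
        have h6 := bk_round (I := I) ha hwa hoa
        omega

/-- Back-degrees at most `k` give `2 k` rounds. -/
theorem kill_of_order {Γ : SimpleGraph V} {o : V → ℕ} (ho : Function.Injective o) {k : ℕ}
    (hk : ∀ v, (bk Γ o v).card ≤ k) : Kill (2 * k) Γ := by
  refine deg_kill_aux ho (2 * k) Γ ?_
  intro w u _ _
  have h1 := hk w
  have h2 := hk u
  omega

end

end Pool.Agent.Lib.MP_23961f_co.DP
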