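import Pool.Agent.Lib.MP_23961f_co.DP.Defs
import Pool.Agent.Lib.MP_23961f_co.DP.Degen2
import Pool.Agent.Lib.MP_23961f_co.Degenerate

/-!
The core of a graph and the density conditions.
-/

set_option autoImplicit false

namespace Pool.Agent.Lib.MP_23961f_co.DP

open Pool.Agent.Lib.MP_23961f_co.K

section

variable {V : Type} [Fintype V]

open Classical in
/-- number of edges between `X` and `Y` -/
noncomputable def ed (G : SimpleGraph V) (X Y : Finset V) : ℕ :=
  ((X ×ˢ Y).filter (fun p => G.Adj p.1 p.2)).card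

open Classical in
/-- The degeneracy: a set with minimum degree `k` and an order with back-degrees at most `k`. -/
theorem exists_core (H : SimpleGraph V) [Nonempty V] :
    ∃ (k : ℕ) (U : Finset V) (o : V → ℕ), U.Nonempty ∧ Function.Injective o ∧
      (∀ v ∈ U, k ≤ (U.filter (fun w => H.Adj v w)).card) ∧ (∀ v, (bk H o v).card ≤ k) := by
  let P : ℕ → Prop := fun k => ∃ U : Finset V, U.Nonempty ∧
    ∀ v ∈ U, k ≤ (U.filter (fun w => H.Adj v w)).card
  have h0 : P 0 := ⟨Finset.univ, Finset.univ_nonempty, fun v _ => Nat.zero_le _⟩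
  have hbig : ∃ k, ¬ P (k + 1) := by
    refine ⟨Fintype.card V, ?_⟩
    rintro ⟨U, ⟨v, hv⟩, h⟩
    have h1 := h v hv
    have h2 := Finset.card_le_univ (U.filter (fun w => H.Adj v w))
    omega
  let k := Nat.find hbig
  have hk : ¬ P (k + 1) := Nat.find_spec hbig
  have hPk : P k := by
    rcases Nat.eq_zero_or_pos k with h | h
    · rw [h]
      exact h0
    · have h1 := Nat.find_min hbig (m := k - 1) (by show k - 1 < k; omega)
      rw [not_not, show k - 1 + 1 = k by omega] at h1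
      exact h1
  obtain ⟨U, hU, hUk⟩ := hPk
  obtain ⟨ℓ, hinj, hlow⟩ := exists_order H k (by
    intro S hS
    by_contra hno
    push Not at hno
    refine hk ⟨S, hS, fun v hv => ?_⟩
    have h1 := hno v hv
    refine le_trans (Nat.succ_le_of_lt h1) (Finset.card_le_card ?_)
    intro w hw
    have h2 := mem_nb.1 hw
    exact Finset.mem_filter.2 ⟨h2.1, h2.2⟩)
  refine ⟨k, U, ℓ, hU, hinj, hUk, fun v => le_trans (Finset.card_le_card ?_) (hlow v)⟩
  intro w hw
  have h1 := mem_bk.1 hw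
  exact mem_low.2 ⟨Finset.mem_univ _, h1.1, h1.2⟩

omit [Fintype V] in
open Classical in
theorem ed_eq_sum (G : SimpleGraph V) (X Y : Finset V) :
    ed G X Y = ∑ v ∈ X, (Y.filter (fun w => G.Adj v w)).card := by
  unfold ed
  rw [Finset.card_filter, Finset.sum_product]
  refine Finset.sum_congr rfl fun v _ => ?_
  rw [Finset.card_filter]

open Classical in
/-- no dense pair of disjoint sets gives `ND` -/
theorem nd_of_density {η δ : ℝ} (hη : 0 < η) (hδ : 0 < δ) (hδ1 : δ ≤ 1) (G : SimpleGraph V)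
    (hn : 2 ≤ η * (Fintype.card V : ℝ))
    (h : ∀ X Y : Finset V, Disjoint X Y → η * (Fintype.card V : ℝ) ≤ (X.card : ℝ) →
      η * (Fintype.card V : ℝ) ≤ (Y.card : ℝ) →
      (ed G X Y : ℝ) ≤ (1 - δ) * ((X.card : ℝ) * (Y.card : ℝ))) :
    ND G (3 * η) (δ / 2) := by
  intro A hA
  by_contra hbad
  push Not at hbad
  set Bad := Finset.univ.filter (fun z : V =>
      ((A.filter (fun w => ¬ G.Adj z w)).card : ℝ) < δ / 2 * (A.card : ℝ)) with hBad
  set m : ℝ := η * (Fintype.card V : ℝ) with hm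
  have hm0 : 0 < m := by linarith
  have hA' : 3 * m ≤ (A.card : ℝ) := by rw [hm]; linarith
  have hbad' : 3 * m < (Bad.card : ℝ) := by rw [hm]; linarith
  have hceil : (⌈m⌉₊ : ℝ) < m + 1 := Nat.ceil_lt_add_one hm0.le
  have hle : ⌈m⌉₊ ≤ Bad.card := by
    have : (⌈m⌉₊ : ℝ) ≤ (Bad.card : ℝ) := by linarith
    exact_mod_cast this
  obtain ⟨X, hXB, hX⟩ := Finset.exists_subset_card_eq hle
  have hXm : m ≤ (X.card : ℝ) := by rw [hX]; exact Nat.le_ceil m
  have hXm1 : (X.card : ℝ) < m + 1 := by rw [hX]; exact hceil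
  have hY : (A.card : ℝ) - (X.card : ℝ) ≤ ((A \ X).card : ℝ) := by
    have h1 := Finset.le_card_sdiff X A
    have h2 : A.card ≤ (A \ X).card + X.card := by omega
    have h3 : (A.card : ℝ) ≤ ((A \ X).card : ℝ) + (X.card : ℝ) := by exact_mod_cast h2
    linarith
  have h1 := h X (A \ X) Finset.disjoint_sdiff hXm (by linarith)
  have hXpos : (0 : ℝ) < (X.card : ℝ) := by linarith
  have hXne : X.Nonempty := by
    rw [← Finset.card_pos]
    exact_mod_cast hXpos
  -- the non-edges
  have h2 : (ed G X (A \ X) : ℝ) + ∑ v ∈ X, (((A \ X).filter (fun w => ¬ G.Adj v w)).card : ℝ) =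
      (X.card : ℝ) * ((A \ X).card : ℝ) := by
    have h3 : ed G X (A \ X) + ∑ v ∈ X, ((A \ X).filter (fun w => ¬ G.Adj v w)).card =
        X.card * (A \ X).card := by
      rw [ed_eq_sum, ← Finset.sum_add_distrib, Finset.sum_const_nat]
      intro v _
      exact Finset.card_filter_add_card_filter_not _
    exact_mod_cast h3
  have h3 : ∑ v ∈ X, (((A \ X).filter (fun w => ¬ G.Adj v w)).card : ℝ) <
      ∑ _v ∈ X, δ / 2 * (A.card : ℝ) := by
    refine Finset.sum_lt_sum_of_nonempty hXne fun v hv => ?_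
    have h4 := (Finset.mem_filter.1 (hXB hv)).2
    refine lt_of_le_of_lt ?_ h4
    have h5 : (A \ X).filter (fun w => ¬ G.Adj v w) ⊆ A.filter (fun w => ¬ G.Adj v w) :=
      Finset.filter_subset_filter _ Finset.sdiff_subset
    exact_mod_cast Finset.card_le_card h5
  rw [Finset.sum_const, nsmul_eq_mul] at h3
  have h4 : (A.card : ℝ) / 2 ≤ ((A \ X).card : ℝ) := by linarith
  have h5 : δ * ((X.card : ℝ) * ((A \ X).card : ℝ)) < (X.card : ℝ) * (δ / 2 * (A.card : ℝ)) := by
    nlinarith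
  have h6 : δ * ((X.card : ℝ) * ((A.card : ℝ) / 2)) ≤ δ * ((X.card : ℝ) * ((A \ X).card : ℝ)) :=
    mul_le_mul_of_nonneg_left (mul_le_mul_of_nonneg_left h4 hXpos.le) hδ.le
  nlinarith

open Classical in
/-- the edges between `X` and `Y` of a graph and of its complement -/
theorem ed_compl (G : SimpleGraph V) {X Y : Finset V} (h : Disjoint X Y) :
    ed Gᶜ X Y + ed G X Y = X.card * Y.card := by
  rw [ed_eq_sum, ed_eq_sum, ← Finset.sum_add_distrib, Finset.sum_const_nat]
  intro v hv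
  have h2 := Finset.card_filter_add_card_filter_not (s := Y) (fun w => G.Adj v w)
  rw [add_comm]
  have h3 : ∀ s t u : Finset V, s = t → u.card + t.card = Y.card → u.card + s.card = Y.card := by
    rintro s t u rfl h
    exact h
  refine h3 _ _ _ ?_ h2
  ext w
  simp only [Finset.mem_filter, SimpleGraph.compl_adj]
  constructor
  · exact fun h4 => ⟨h4.1, h4.2.2⟩
  · intro h4
    exact ⟨h4.1, fun h5 => Finset.disjoint_left.1 h hv (h5 ▸ h4.1), h4.2⟩

open Classical in
/-- If `H` has no sparse pairs then the degeneracy is linear. -/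
theorem core_large {η δ : ℝ} (hη : 0 < η) (hη1 : η ≤ 1 / 3) (hδ : 0 < δ) (H : SimpleGraph V)
    (hn : 6 ≤ Fintype.card V)
    (h : ∀ X Y : Finset V, Disjoint X Y → η * (Fintype.card V : ℝ) ≤ (X.card : ℝ) →
      η * (Fintype.card V : ℝ) ≤ (Y.card : ℝ) →
      δ * ((X.card : ℝ) * (Y.card : ℝ)) ≤ (ed H X Y : ℝ)) {k : ℕ} {o : V → ℕ}
    (ho : Function.Injective o) (hk : ∀ v, (bk H o v).card ≤ k) :
    δ / 9 * (Fintype.card V : ℝ) ≤ (k : ℝ) := by
  set n := Fintype.card V with hn'
  obtain ⟨X, -, hX⟩ := Finset.exists_subset_card_eq (s := (Finset.univ : Finset V)) (n := n / 2)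
    (by rw [Finset.card_univ]; omega)
  have hXc : (Xᶜ).card = n - n / 2 := by rw [Finset.card_compl, hX]
  have h1 : (n : ℝ) / 3 ≤ (X.card : ℝ) := by
    rw [hX, div_le_iff₀ (by norm_num)]
    have : n ≤ n / 2 * 3 := by omega
    exact_mod_cast this
  have h2 : (n : ℝ) / 3 ≤ ((Xᶜ).card : ℝ) := by
    rw [hXc, div_le_iff₀ (by norm_num)]
    have : n ≤ (n - n / 2) * 3 := by omega
    exact_mod_cast this
  have hn0 : (0 : ℝ) < (n : ℝ) := by
    have : 0 < n := by omega
    exact_mod_cast this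
  have h3 : η * (n : ℝ) ≤ (n : ℝ) / 3 := by nlinarith
  have h4 := h X Xᶜ disjoint_compl_right (h3.trans h1) (h3.trans h2)
  -- the edges are counted by the back-degrees
  have h5 : ed H X Xᶜ ≤ ∑ v, (bk H o v).card := by
    have h6 : ∑ v, (bk H o v).card =
        (Finset.univ.filter (fun p : V × V => H.Adj p.1 p.2 ∧ o p.2 < o p.1)).card := by
      rw [Finset.card_filter, ← Finset.univ_product_univ, Finset.sum_product]
      refine Finset.sum_congr rfl fun v _ => ?_
      rw [← Finset.card_filter]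
      rfl
    rw [h6]
    unfold ed
    refine Finset.card_le_card_of_injOn (fun p => if o p.2 < o p.1 then p else p.swap) ?_ ?_
    · intro p hp
      have hp' := Finset.mem_filter.1 (Finset.mem_coe.1 hp)
      have hne : p.1 ≠ p.2 := hp'.2.ne
      show (if o p.2 < o p.1 then p else p.swap) ∈
        ((Finset.univ.filter (fun p : V × V => H.Adj p.1 p.2 ∧ o p.2 < o p.1) : Finset (V × V)) :
          Set (V × V))
      rw [Finset.mem_coe, Finset.mem_filter]
      refine ⟨Finset.mem_univ _, ?_⟩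
      split_ifs with h7
      · exact ⟨hp'.2, h7⟩
      · refine ⟨hp'.2.symm, ?_⟩
        have h8 : o p.1 ≠ o p.2 := fun h9 => hne (ho h9)
        show o p.1 < o p.2
        omega
    · intro p hp q hq hpq
      have hp' := Finset.mem_product.1 (Finset.mem_filter.1 (Finset.mem_coe.1 hp)).1
      have hq' := Finset.mem_product.1 (Finset.mem_filter.1 (Finset.mem_coe.1 hq)).1
      have hp2 := Finset.mem_compl.1 hp'.2
      have hq2 := Finset.mem_compl.1 hq'.2
      change (if o p.2 < o p.1 then p else p.swap) = (if o q.2 < o q.1 then q else q.swap) at hpq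
      split_ifs at hpq with h7 h8 h8
      · exact hpq
      · exfalso
        have h9 : p.1 = q.2 := by rw [hpq]; rfl
        exact hq2 (h9 ▸ hp'.1)
      · exfalso
        have h9 : q.1 = p.2 := by rw [← hpq]; rfl
        exact hp2 (h9 ▸ hq'.1)
      · exact Prod.swap_injective hpq
  have h6 : ∑ v, (bk H o v).card ≤ n * k := by
    have h7 := Finset.sum_le_card_nsmul Finset.univ (fun v => (bk H o v).card) k
      (fun v _ => hk v)
    rwa [smul_eq_mul, Finset.card_univ] at h7
  have h7 : (ed H X Xᶜ : ℝ) ≤ (n : ℝ) * (k : ℝ) := by exact_mod_cast h5.trans h6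
  have h8 : (n : ℝ) / 3 * ((n : ℝ) / 3) ≤ (X.card : ℝ) * ((Xᶜ).card : ℝ) :=
    mul_le_mul h1 h2 (by positivity) (by positivity)
  have h9 : δ * ((n : ℝ) / 3 * ((n : ℝ) / 3)) ≤ (n : ℝ) * (k : ℝ) :=
    (mul_le_mul_of_nonneg_left h8 hδ.le).trans (h4.trans h7)
  have h10 : (n : ℝ) * (δ / 9 * (n : ℝ)) ≤ (n : ℝ) * (k : ℝ) := by
    calc (n : ℝ) * (δ / 9 * (n : ℝ)) = δ * ((n : ℝ) / 3 * ((n : ℝ) / 3)) := by ring
      _ ≤ _ := h9
  exact le_of_mul_le_mul_left h10 hn0

open Classical in
/-- If `G` has no sparse pairs then some vertex of a large set `U` has linear degree in `U`. -/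
theorem large_degree {η δ γ : ℝ} (hη : 0 < η) (hδ : 0 < δ) (hγ : 0 < γ) (hηγ : 3 * η ≤ γ)
    (G : SimpleGraph V) (hn : 6 ≤ γ * (Fintype.card V : ℝ))
    (h : ∀ X Y : Finset V, Disjoint X Y → η * (Fintype.card V : ℝ) ≤ (X.card : ℝ) →
      η * (Fintype.card V : ℝ) ≤ (Y.card : ℝ) →
      δ * ((X.card : ℝ) * (Y.card : ℝ)) ≤ (ed G X Y : ℝ)) (U : Finset V)
    (hU : γ * (Fintype.card V : ℝ) ≤ (U.card : ℝ)) :
    ∃ v ∈ U, δ * γ / 3 * (Fintype.card V : ℝ) ≤ ((U.filter (fun w => G.Adj v w)).card : ℝ) := by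
  set n : ℝ := (Fintype.card V : ℝ) with hn'
  have hn0 : 0 ≤ n := Nat.cast_nonneg _
  have hU6 : 6 ≤ U.card := by
    have : (6 : ℝ) ≤ (U.card : ℝ) := hn.trans hU
    exact_mod_cast this
  obtain ⟨X, hXU, hX⟩ := Finset.exists_subset_card_eq (s := U) (n := U.card / 2) (by omega)
  have hY : (U \ X).card = U.card - U.card / 2 := by
    rw [Finset.card_sdiff_of_subset hXU, hX]
  have h1 : (U.card : ℝ) / 3 ≤ (X.card : ℝ) := by
    rw [hX, div_le_iff₀ (by norm_num)]
    have : U.card ≤ U.card / 2 * 3 := by omega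
    exact_mod_cast this
  have h2 : (U.card : ℝ) / 3 ≤ ((U \ X).card : ℝ) := by
    rw [hY, div_le_iff₀ (by norm_num)]
    have : U.card ≤ (U.card - U.card / 2) * 3 := by omega
    exact_mod_cast this
  have h3 : η * n ≤ (U.card : ℝ) / 3 := by
    have h4 : 3 * η * n ≤ γ * n := mul_le_mul_of_nonneg_right hηγ hn0
    linarith
  have h4 := h X (U \ X) Finset.disjoint_sdiff (h3.trans h1) (h3.trans h2)
  have hXpos : (0 : ℝ) < (X.card : ℝ) := by
    have : 0 < X.card := by rw [hX]; omega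
    exact_mod_cast this
  have hXne : X.Nonempty := by
    rw [← Finset.card_pos]
    exact_mod_cast hXpos
  by_contra hno
  push Not at hno
  have h5 : (ed G X (U \ X) : ℝ) < (X.card : ℝ) * (δ * γ / 3 * n) := by
    rw [ed_eq_sum]
    push_cast
    have h6 : ∑ v ∈ X, (((U \ X).filter (fun w => G.Adj v w)).card : ℝ) <
        ∑ _v ∈ X, δ * γ / 3 * n := by
      refine Finset.sum_lt_sum_of_nonempty hXne fun v hv => ?_
      refine lt_of_le_of_lt ?_ (hno v (hXU hv))
      have h7 : (U \ X).filter (fun w => G.Adj v w) ⊆ U.filter (fun w => G.Adj v w) :=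
        Finset.filter_subset_filter _ Finset.sdiff_subset
      exact_mod_cast Finset.card_le_card h7
    rwa [Finset.sum_const, nsmul_eq_mul] at h6
  have h6 : (X.card : ℝ) * (δ * γ / 3 * n) ≤ δ * ((X.card : ℝ) * ((U \ X).card : ℝ)) := by
    have h7 : γ / 3 * n ≤ ((U \ X).card : ℝ) := by linarith
    have h8 : (X.card : ℝ) * (δ * (γ / 3 * n)) ≤ (X.card : ℝ) * (δ * ((U \ X).card : ℝ)) :=
      mul_le_mul_of_nonneg_left (mul_le_mul_of_nonneg_left h7 hδ.le) hXpos.le
    calc (X.card : ℝ) * (δ * γ / 3 * n) = (X.card : ℝ) * (δ * (γ / 3 * n)) := by ring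
      _ ≤ _ := h8
      _ = _ := by ring
  linarith

end

end Pool.Agent.Lib.MP_23961f_co.DP
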