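import Pool.Agent.Lib.MP_23961f_co.K.Cover

/-!
Graphs without dense pairs; sequences of rounds.

`ND Γ η δ`: for every set `A` of at least `η n` vertices at most `η n` vertices have fewer than
`δ |A|` non-neighbours in `A`.
`Rd t Γ Γ'`: `Γ'` arises from `Γ` by `t` rounds.
-/

set_option autoImplicit false

namespace Pool.Agent.Lib.MP_23961f_co.DP

open Pool.Agent.Lib.MP_23961f_co.K

section

variable {V : Type} [Fintype V]

open Classical in
/-- For every set `A` of at least `η n` vertices at most `η n` vertices have fewer than `δ |A|`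
non-neighbours in `A`. -/
def ND (Γ : SimpleGraph V) (η δ : ℝ) : Prop :=
  ∀ A : Finset V, η * (Fintype.card V : ℝ) ≤ (A.card : ℝ) →
    ((Finset.univ.filter (fun z : V =>
      ((A.filter (fun w => ¬ Γ.Adj z w)).card : ℝ) < δ * (A.card : ℝ))).card : ℝ) ≤
      η * (Fintype.card V : ℝ)

open Classical in
theorem ND.mono {Γ Γ' : SimpleGraph V} {η δ : ℝ} (h : ND Γ η δ) (hle : Γ' ≤ Γ) : ND Γ' η δ := by
  intro A hA
  refine le_trans ?_ (h A hA)
  have h1 : Finset.univ.filter (fun z : V =>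
      ((A.filter (fun w => ¬ Γ'.Adj z w)).card : ℝ) < δ * (A.card : ℝ)) ⊆
      Finset.univ.filter (fun z : V =>
      ((A.filter (fun w => ¬ Γ.Adj z w)).card : ℝ) < δ * (A.card : ℝ)) := by
    intro z hz
    refine Finset.mem_filter.2 ⟨Finset.mem_univ _, lt_of_le_of_lt ?_ (Finset.mem_filter.1 hz).2⟩
    have h2 : A.filter (fun w => ¬ Γ.Adj z w) ⊆ A.filter (fun w => ¬ Γ'.Adj z w) := by
      intro w hw
      obtain ⟨h3, h4⟩ := Finset.mem_filter.1 hw
      exact Finset.mem_filter.2 ⟨h3, fun h5 => h4 (hle h5)⟩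
    exact_mod_cast Finset.card_le_card h2
  exact_mod_cast Finset.card_le_card h1

open Classical in
theorem ND.mono_eta {Γ : SimpleGraph V} {η η' δ : ℝ} (h : ND Γ η δ) (hle : η ≤ η') :
    ND Γ η' δ := by
  intro A hA
  have h0 : (0 : ℝ) ≤ (Fintype.card V : ℝ) := Nat.cast_nonneg _
  have h1 : η * (Fintype.card V : ℝ) ≤ η' * (Fintype.card V : ℝ) :=
    mul_le_mul_of_nonneg_right hle h0
  exact (h A (h1.trans hA)).trans h1

open Classical in
theorem ND.mono_delta {Γ : SimpleGraph V} {η δ δ' : ℝ} (h : ND Γ η δ) (hle : δ' ≤ δ) :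
    ND Γ η δ' := by
  intro A hA
  refine le_trans ?_ (h A hA)
  have h1 : Finset.univ.filter (fun z : V =>
      ((A.filter (fun w => ¬ Γ.Adj z w)).card : ℝ) < δ' * (A.card : ℝ)) ⊆
      Finset.univ.filter (fun z : V =>
      ((A.filter (fun w => ¬ Γ.Adj z w)).card : ℝ) < δ * (A.card : ℝ)) := by
    intro z hz
    refine Finset.mem_filter.2 ⟨Finset.mem_univ _, lt_of_lt_of_le (Finset.mem_filter.1 hz).2 ?_⟩
    exact mul_le_mul_of_nonneg_right hle (Nat.cast_nonneg _)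
  exact_mod_cast Finset.card_le_card h1

/-- `Γ'` arises from `Γ` by `t` rounds. -/
def Rd : ℕ → SimpleGraph V → SimpleGraph V → Prop
  | 0, Γ, Γ' => Γ' = Γ
  | t + 1, Γ, Γ' => ∃ Γ₁ : SimpleGraph V, Rd t Γ Γ₁ ∧
      ∃ I : List V, I.Pairwise (fun a b => ¬ Γ₁.Adj a b) ∧ Γ' = roundL Γ₁ I

omit [Fintype V] in
theorem Rd.snoc {t : ℕ} {Γ Γ' : SimpleGraph V} (h : Rd t Γ Γ') {I : List V}
    (hI : I.Pairwise (fun a b => ¬ Γ'.Adj a b)) : Rd (t + 1) Γ (roundL Γ' I) :=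
  ⟨Γ', h, I, hI, rfl⟩

omit [Fintype V] in
theorem Rd.le {Γ : SimpleGraph V} : ∀ {t : ℕ} {Γ' : SimpleGraph V}, Rd t Γ Γ' → Γ' ≤ Γ := by
  intro t
  induction t with
  | zero =>
    intro Γ' h
    rw [show Γ' = Γ from h]
  | succ t ih =>
    rintro Γ' ⟨Γ₁, h1, I, _, rfl⟩
    exact (roundL_le Γ₁ I).trans (ih h1)

omit [Fintype V] in
theorem Rd.kill {Γ : SimpleGraph V} : ∀ {t j : ℕ} {Γ' : SimpleGraph V}, Rd t Γ Γ' → Kill j Γ' →
    Kill (t + j) Γ := by
  intro t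
  induction t with
  | zero =>
    intro j Γ' h hk
    rw [show Γ' = Γ from h] at hk
    rwa [Nat.zero_add]
  | succ t ih =>
    rintro j Γ' ⟨Γ₁, h1, I, hI, rfl⟩ hk
    have h2 : Kill (j + 1) Γ₁ := ⟨I, hI, hk⟩
    have h3 := ih h1 h2
    rwa [show t + 1 + j = t + (j + 1) by omega]

end

end Pool.Agent.Lib.MP_23961f_co.DP
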