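import Pool.Agent.Lib.MP_23961f_co.DP.Defs

/-!
Clusters: a set `B` in every large part of which most members of a family of sets have still a
large density.
-/

set_option autoImplicit false

namespace Pool.Agent.Lib.MP_23961f_co.DP

open Pool.Agent.Lib.MP_23961f_co.K

section

variable {V : Type}

open Classical in
/-- density of `S` in `B` -/
noncomputable def dn (S B : Finset V) : ℝ := ((S ∩ B).card : ℝ) / (B.card : ℝ)

open Classical in
/-- energy of `B` with respect to the sets `S w`, `w ∈ W` -/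
noncomputable def En (W : Finset V) (S : V → Finset V) (B : Finset V) : ℝ :=
  ∑ w ∈ W, dn (S w) B ^ 2

theorem dn_nonneg (S B : Finset V) : 0 ≤ dn S B := by
  unfold dn
  positivity

theorem dn_le_one (S B : Finset V) : dn S B ≤ 1 := by
  classical
  unfold dn
  refine div_le_one_of_le₀ ?_ (Nat.cast_nonneg _)
  have h : (S ∩ B).card ≤ B.card := Finset.card_le_card Finset.inter_subset_right
  exact_mod_cast h

theorem en_sq_le_one (S B : Finset V) : dn S B ^ 2 ≤ 1 :=
  pow_le_one₀ (dn_nonneg S B) (dn_le_one S B)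

theorem en_nonneg (W : Finset V) (S : V → Finset V) (B : Finset V) : 0 ≤ En W S B := by
  unfold En
  exact Finset.sum_nonneg (fun w _ => sq_nonneg _)

theorem en_le_card (W : Finset V) (S : V → Finset V) (B : Finset V) :
    En W S B ≤ (W.card : ℝ) := by
  unfold En
  refine (Finset.sum_le_sum (fun w _ => en_sq_le_one (S w) B)).trans ?_
  simp

open Classical in
theorem en_stable_aux {β κ : ℝ} (hβ : 0 < β) (hβ1 : β ≤ 1) (W : Finset V)
    (S : V → Finset V) : ∀ (j : ℕ) (B₀ : Finset V), B₀.Nonempty →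
      (W.card : ℝ) < En W S B₀ + (j : ℝ) * (κ * (W.card : ℝ)) →
    ∃ B : Finset V, B ⊆ B₀ ∧ B.Nonempty ∧ β ^ j * (B₀.card : ℝ) ≤ (B.card : ℝ) ∧
      En W S B₀ ≤ En W S B ∧
      ∀ A ⊆ B, A.Nonempty → β * (B.card : ℝ) ≤ (A.card : ℝ) →
        En W S A ≤ En W S B + κ * (W.card : ℝ) := by
  intro j
  induction j with
  | zero =>
    intro B₀ _ hj
    exfalso
    have h1 := en_le_card W S B₀
    rw [Nat.cast_zero, zero_mul, add_zero] at hj
    exact absurd hj (not_lt.2 h1)
  | succ j ih =>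
    intro B₀ hB₀ hj
    by_cases hst : ∀ A ⊆ B₀, A.Nonempty → β * (B₀.card : ℝ) ≤ (A.card : ℝ) →
        En W S A ≤ En W S B₀ + κ * (W.card : ℝ)
    · refine ⟨B₀, Finset.Subset.refl _, hB₀, ?_, le_refl _, hst⟩
      have h1 : β ^ (j + 1) ≤ 1 := pow_le_one₀ hβ.le hβ1
      have h2 : (0 : ℝ) ≤ (B₀.card : ℝ) := Nat.cast_nonneg _
      exact mul_le_of_le_one_left h2 h1
    · push Not at hst
      obtain ⟨A, hA, hA0, hA1, hA2⟩ := hst
      have h3 : (W.card : ℝ) < En W S A + (j : ℝ) * (κ * (W.card : ℝ)) := by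
        have h4 : ((j + 1 : ℕ) : ℝ) * (κ * (W.card : ℝ)) =
            (j : ℝ) * (κ * (W.card : ℝ)) + κ * (W.card : ℝ) := by
          push_cast
          ring
        rw [h4] at hj
        linarith
      obtain ⟨B, hB, hB0, hB1, hB2, hB3⟩ := ih A hA0 h3
      refine ⟨B, hB.trans hA, hB0, ?_, ?_, hB3⟩
      · have h5 : β ^ (j + 1) * (B₀.card : ℝ) = β ^ j * (β * (B₀.card : ℝ)) := by ring
        rw [h5]
        exact (mul_le_mul_of_nonneg_left hA1 (pow_nonneg hβ.le _)).trans hB1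
      · have h6 : 0 ≤ κ * (W.card : ℝ) ∨ κ * (W.card : ℝ) < 0 := le_or_gt _ _
        rcases h6 with h6 | h6
        · linarith
        · exfalso
          have h7 := en_le_card W S B₀
          have h8 : ((j + 1 : ℕ) : ℝ) * (κ * (W.card : ℝ)) ≤ 0 :=
            mul_nonpos_of_nonneg_of_nonpos (Nat.cast_nonneg _) h6.le
          linarith

open Classical in
/-- A set `B` whose energy cannot be raised by `κ |W|` on a part of relative size `β`. -/
theorem exists_stable {β κ : ℝ} (hβ : 0 < β) (hβ1 : β ≤ 1) (hκ : 0 < κ) (W : Finset V)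
    (S : V → Finset V) (B₀ : Finset V) (hB₀ : B₀.Nonempty) :
    ∃ B : Finset V, B ⊆ B₀ ∧ B.Nonempty ∧ β ^ (⌈1 / κ⌉₊ + 1) * (B₀.card : ℝ) ≤ (B.card : ℝ) ∧
      En W S B₀ ≤ En W S B ∧
      ∀ A ⊆ B, A.Nonempty → β * (B.card : ℝ) ≤ (A.card : ℝ) →
        En W S A ≤ En W S B + κ * (W.card : ℝ) := by
  rcases Finset.eq_empty_or_nonempty W with hW | hW
  · subst hW
    refine ⟨B₀, Finset.Subset.refl _, hB₀, ?_, le_refl _, ?_⟩
    · have h1 : β ^ (⌈1 / κ⌉₊ + 1) ≤ 1 := pow_le_one₀ hβ.le hβ1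
      have h2 : (0 : ℝ) ≤ (B₀.card : ℝ) := Nat.cast_nonneg _
      exact mul_le_of_le_one_left h2 h1
    · intro A _ _ _
      simp [En]
  · refine en_stable_aux hβ hβ1 W S _ B₀ hB₀ ?_
    have hW0 : (0 : ℝ) < (W.card : ℝ) := by exact_mod_cast hW.card_pos
    have h1 : 1 / κ ≤ (⌈1 / κ⌉₊ : ℝ) := Nat.le_ceil _
    have h2 : 1 ≤ (⌈1 / κ⌉₊ : ℝ) * κ := by
      calc (1 : ℝ) = 1 / κ * κ := (one_div_mul_cancel hκ.ne').symm
        _ ≤ (⌈1 / κ⌉₊ : ℝ) * κ := mul_le_mul_of_nonneg_right h1 hκ.le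
    have h4 : (1 : ℝ) < ((⌈1 / κ⌉₊ + 1 : ℕ) : ℝ) * κ := by
      push_cast
      nlinarith
    have h5 : (W.card : ℝ) < ((⌈1 / κ⌉₊ + 1 : ℕ) : ℝ) * (κ * (W.card : ℝ)) := by
      have h6 : ((⌈1 / κ⌉₊ + 1 : ℕ) : ℝ) * (κ * (W.card : ℝ)) =
          (((⌈1 / κ⌉₊ + 1 : ℕ) : ℝ) * κ) * (W.card : ℝ) := by ring
      rw [h6]
      exact lt_mul_of_one_lt_left hW0 h4
    have h7 := en_nonneg W S B₀
    linarith

/-- the identity for a convex combination -/
theorem en_identity {a c x y d : ℝ} (ha : 0 < a) (hc : 0 < c)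
    (hd : (a + c) * d = a * x + c * y) :
    a * (x - d) ^ 2 = c * ((a * x ^ 2 + c * y ^ 2) / (a + c) - d ^ 2) := by
  have hb : 0 < a + c := add_pos ha hc
  have hb' : a + c ≠ 0 := hb.ne'
  have hy : y = ((a + c) * d - a * x) / c := by
    field_simp
    linarith
  rw [hy]
  field_simp
  ring

open Classical in
theorem en_split (S A B : Finset V) (hA : A ⊆ B) :
    ((S ∩ B).card : ℝ) = ((S ∩ A).card : ℝ) + ((S ∩ (B \ A)).card : ℝ) := by
  have h1 : S ∩ B = (S ∩ A) ∪ (S ∩ (B \ A)) := by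
    rw [← Finset.inter_union_distrib_left, Finset.union_sdiff_of_subset hA]
  have h2 : Disjoint (S ∩ A) (S ∩ (B \ A)) := by
    refine Finset.disjoint_left.2 ?_
    intro x hx hx'
    exact (Finset.mem_sdiff.1 (Finset.mem_inter.1 hx').2).2 (Finset.mem_inter.1 hx).2
  have h3 : (S ∩ B).card = (S ∩ A).card + (S ∩ (B \ A)).card := by
    rw [h1, Finset.card_union_of_disjoint h2]
  exact_mod_cast h3

open Classical in
/-- In a stable set the densities hardly change on a large part. -/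
theorem stable_diff {β κ : ℝ} (hβ : 0 < β) (hβ1 : β ≤ 1) (hκ : 0 ≤ κ) (W : Finset V)
    (S : V → Finset V) (B : Finset V) (hB : B.Nonempty)
    (hst : ∀ A ⊆ B, A.Nonempty → β * (B.card : ℝ) ≤ (A.card : ℝ) →
      En W S A ≤ En W S B + κ * (W.card : ℝ))
    (A : Finset V) (hA : A ⊆ B) (hA0 : A.Nonempty) (hA1 : β * (B.card : ℝ) ≤ (A.card : ℝ)) :
    ∑ w ∈ W, (dn (S w) A - dn (S w) B) ^ 2 ≤ max (κ / β) (β ^ 2) * (W.card : ℝ) := by
  have hW0 : (0 : ℝ) ≤ (W.card : ℝ) := Nat.cast_nonneg _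
  have hm0 : 0 ≤ max (κ / β) (β ^ 2) := le_max_of_le_right (sq_nonneg _)
  rcases Finset.eq_empty_or_nonempty (B \ A) with hC | hC
  · have h1 : B = A := Finset.Subset.antisymm (Finset.sdiff_eq_empty_iff_subset.1 hC) hA
    subst h1
    have h2 : ∑ w ∈ W, (dn (S w) B - dn (S w) B) ^ 2 = 0 := by
      refine Finset.sum_eq_zero ?_
      intro w _
      ring
    rw [h2]
    exact mul_nonneg hm0 hW0
  · have ha : (0 : ℝ) < (A.card : ℝ) := by exact_mod_cast hA0.card_pos
    have hc : (0 : ℝ) < ((B \ A).card : ℝ) := by exact_mod_cast hC.card_pos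
    have hb : (0 : ℝ) < (B.card : ℝ) := by exact_mod_cast hB.card_pos
    have habc : (B.card : ℝ) = (A.card : ℝ) + ((B \ A).card : ℝ) := by
      have h1 : (B \ A).card + A.card = B.card := Finset.card_sdiff_add_card_eq_card hA
      have h2 : B.card = A.card + (B \ A).card := by omega
      exact_mod_cast h2
    have hconv : ∀ w : V, ((A.card : ℝ) + ((B \ A).card : ℝ)) * dn (S w) B =
        (A.card : ℝ) * dn (S w) A + ((B \ A).card : ℝ) * dn (S w) (B \ A) := by
      intro w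
      unfold dn
      rw [← habc, mul_div_cancel₀ _ hb.ne', mul_div_cancel₀ _ ha.ne', mul_div_cancel₀ _ hc.ne']
      exact en_split (S w) A B hA
    by_cases hcase : β * (B.card : ℝ) ≤ ((B \ A).card : ℝ)
    · have h1 := hst A hA hA0 hA1
      have h2 := hst (B \ A) Finset.sdiff_subset hC hcase
      have h3 : (A.card : ℝ) * (∑ w ∈ W, (dn (S w) A - dn (S w) B) ^ 2) =
          ((B \ A).card : ℝ) * (((A.card : ℝ) * En W S A +
            ((B \ A).card : ℝ) * En W S (B \ A)) / (B.card : ℝ) - En W S B) := by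
        unfold En
        rw [Finset.mul_sum, Finset.mul_sum, Finset.mul_sum, ← Finset.sum_add_distrib,
          Finset.sum_div, ← Finset.sum_sub_distrib, Finset.mul_sum]
        refine Finset.sum_congr rfl ?_
        intro w _
        rw [en_identity ha hc (hconv w), ← habc]
      have h4 : ((A.card : ℝ) * En W S A + ((B \ A).card : ℝ) * En W S (B \ A)) /
          (B.card : ℝ) ≤ En W S B + κ * (W.card : ℝ) := by
        rw [div_le_iff₀ hb]
        have h5 := mul_le_mul_of_nonneg_left h1 ha.le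
        have h6 := mul_le_mul_of_nonneg_left h2 hc.le
        have h7 : (En W S B + κ * (W.card : ℝ)) * (B.card : ℝ) =
            (A.card : ℝ) * (En W S B + κ * (W.card : ℝ)) +
            ((B \ A).card : ℝ) * (En W S B + κ * (W.card : ℝ)) := by
          rw [habc]
          ring
        rw [h7]
        exact add_le_add h5 h6
      have h8 : (A.card : ℝ) * (∑ w ∈ W, (dn (S w) A - dn (S w) B) ^ 2) ≤
          ((B \ A).card : ℝ) * (κ * (W.card : ℝ)) := by
        rw [h3]
        refine mul_le_mul_of_nonneg_left ?_ hc.le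
        linarith
      have h9 : ((B \ A).card : ℝ) * (κ * (W.card : ℝ)) ≤
          (A.card : ℝ) * (κ / β * (W.card : ℝ)) := by
        have h10 : ((B \ A).card : ℝ) ≤ (A.card : ℝ) / β := by
          rw [le_div_iff₀ hβ]
          have h11 : ((B \ A).card : ℝ) ≤ (B.card : ℝ) := by
            rw [habc]
            linarith
          calc ((B \ A).card : ℝ) * β ≤ (B.card : ℝ) * β :=
                mul_le_mul_of_nonneg_right h11 hβ.le
            _ = β * (B.card : ℝ) := by ring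
            _ ≤ (A.card : ℝ) := hA1
        calc ((B \ A).card : ℝ) * (κ * (W.card : ℝ)) ≤
              ((A.card : ℝ) / β) * (κ * (W.card : ℝ)) :=
              mul_le_mul_of_nonneg_right h10 (mul_nonneg hκ hW0)
          _ = (A.card : ℝ) * (κ / β * (W.card : ℝ)) := by ring
      have h12 : ∑ w ∈ W, (dn (S w) A - dn (S w) B) ^ 2 ≤ κ / β * (W.card : ℝ) :=
        le_of_mul_le_mul_left (h8.trans h9) ha
      exact h12.trans (mul_le_mul_of_nonneg_right (le_max_left _ _) hW0)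
    · push Not at hcase
      have h1 : ∀ w ∈ W, (dn (S w) A - dn (S w) B) ^ 2 ≤ β ^ 2 := by
        intro w _
        have h2 := hconv w
        rw [← habc] at h2
        have h3 : (B.card : ℝ) * (dn (S w) A - dn (S w) B) =
            ((B \ A).card : ℝ) * (dn (S w) A - dn (S w) (B \ A)) := by
          have h4 : (B.card : ℝ) * (dn (S w) A - dn (S w) B) =
              (B.card : ℝ) * dn (S w) A - (B.card : ℝ) * dn (S w) B := by ring
          rw [h4, h2, habc]
          ring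
        have h5 : |dn (S w) A - dn (S w) (B \ A)| ≤ 1 := by
          rw [abs_le]
          have h6 := dn_nonneg (S w) A
          have h7 := dn_le_one (S w) A
          have h8 := dn_nonneg (S w) (B \ A)
          have h9 := dn_le_one (S w) (B \ A)
          constructor <;> linarith
        have h10 : (B.card : ℝ) * |dn (S w) A - dn (S w) B| ≤ (B.card : ℝ) * β := by
          calc (B.card : ℝ) * |dn (S w) A - dn (S w) B| =
                |(B.card : ℝ) * (dn (S w) A - dn (S w) B)| := by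
                rw [abs_mul, abs_of_pos hb]
            _ = |((B \ A).card : ℝ) * (dn (S w) A - dn (S w) (B \ A))| := by rw [h3]
            _ = ((B \ A).card : ℝ) * |dn (S w) A - dn (S w) (B \ A)| := by
                rw [abs_mul, abs_of_pos hc]
            _ ≤ ((B \ A).card : ℝ) * 1 := mul_le_mul_of_nonneg_left h5 hc.le
            _ ≤ (B.card : ℝ) * β := by linarith
        have h11 : |dn (S w) A - dn (S w) B| ≤ β := le_of_mul_le_mul_left h10 hb
        have h12 : |dn (S w) A - dn (S w) B| ≤ |β| := by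
          rwa [abs_of_pos hβ]
        exact sq_le_sq.2 h12
      calc ∑ w ∈ W, (dn (S w) A - dn (S w) B) ^ 2 ≤ ∑ _w ∈ W, β ^ 2 :=
            Finset.sum_le_sum h1
        _ = β ^ 2 * (W.card : ℝ) := by
            rw [Finset.sum_const, nsmul_eq_mul]
            ring
        _ ≤ max (κ / β) (β ^ 2) * (W.card : ℝ) :=
            mul_le_mul_of_nonneg_right (le_max_right _ _) hW0

open Classical in
/-- Main statement: a cluster. -/
theorem exists_cluster {ρ β θ : ℝ} (hρ : 0 < ρ) (hρ1 : ρ ≤ 1) (hβ : 0 < β) (hβ1 : β ≤ 1)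
    (hθ : 0 < θ) :
    ∃ α : ℝ, 0 < α ∧ ∀ (V : Type) [Fintype V] [Nonempty V] (W : Finset V) (S : V → Finset V),
      (∀ w ∈ W, ρ * (Fintype.card V : ℝ) ≤ ((S w).card : ℝ)) →
      ∃ B : Finset V, B.Nonempty ∧ α * (Fintype.card V : ℝ) ≤ (B.card : ℝ) ∧
        ρ ^ 2 / 2 * (W.card : ℝ) ≤ ((W.filter (fun w => ρ / 2 ≤ dn (S w) B)).card : ℝ) ∧
        ∀ A ⊆ B, β * (B.card : ℝ) ≤ (A.card : ℝ) →
          ((W.filter (fun w => ρ / 2 ≤ dn (S w) B ∧ dn (S w) A < ρ / 4)).card : ℝ) ≤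
            θ * (W.card : ℝ) := by
  have hsθ : 0 < Real.sqrt θ := Real.sqrt_pos.2 hθ
  have hsθ2 : Real.sqrt θ ^ 2 = θ := Real.sq_sqrt hθ.le
  obtain ⟨β', hβ'def⟩ : ∃ β' : ℝ, β' = min β (ρ * Real.sqrt θ / 4) := ⟨_, rfl⟩
  have hβ'0 : 0 < β' := by
    rw [hβ'def]
    exact lt_min hβ (by positivity)
  have hβ'β : β' ≤ β := by
    rw [hβ'def]
    exact min_le_left _ _
  have hβ'1 : β' ≤ 1 := hβ'β.trans hβ1
  have hβ'2 : β' ^ 2 ≤ θ * ρ ^ 2 / 16 := by
    have h1 : β' ≤ ρ * Real.sqrt θ / 4 := by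
      rw [hβ'def]
      exact min_le_right _ _
    have h2 : β' ^ 2 ≤ (ρ * Real.sqrt θ / 4) ^ 2 := pow_le_pow_left₀ hβ'0.le h1 2
    have h3 : (ρ * Real.sqrt θ / 4) ^ 2 = θ * ρ ^ 2 / 16 := by
      have h4 : (ρ * Real.sqrt θ / 4) ^ 2 = ρ ^ 2 * Real.sqrt θ ^ 2 / 16 := by ring
      rw [h4, hsθ2]
      ring
    rwa [h3] at h2
  obtain ⟨κ, hκdef⟩ : ∃ κ : ℝ, κ = β' * (θ * ρ ^ 2 / 16) := ⟨_, rfl⟩
  have hκ0 : 0 < κ := by
    rw [hκdef]
    positivity
  have hκβ : κ / β' = θ * ρ ^ 2 / 16 := by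
    rw [hκdef]
    field_simp
  refine ⟨β' ^ (⌈1 / κ⌉₊ + 1), pow_pos hβ'0 _, ?_⟩
  intro V _ _ W S hS
  have hW0 : (0 : ℝ) ≤ (W.card : ℝ) := Nat.cast_nonneg _
  obtain ⟨B, _, hB0, hB1, hB2, hB3⟩ :=
    exists_stable hβ'0 hβ'1 hκ0 W S (Finset.univ : Finset V) Finset.univ_nonempty
  refine ⟨B, hB0, ?_, ?_, ?_⟩
  · rwa [Finset.card_univ] at hB1
  · have hn : (0 : ℝ) < (Fintype.card V : ℝ) := by exact_mod_cast Fintype.card_pos
    have h1 : ρ ^ 2 * (W.card : ℝ) ≤ En W S (Finset.univ : Finset V) := by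
      unfold En
      calc ρ ^ 2 * (W.card : ℝ) = ∑ _w ∈ W, ρ ^ 2 := by
            rw [Finset.sum_const, nsmul_eq_mul]
            ring
        _ ≤ ∑ w ∈ W, dn (S w) (Finset.univ : Finset V) ^ 2 := by
            refine Finset.sum_le_sum ?_
            intro w hw
            refine pow_le_pow_left₀ hρ.le ?_ 2
            unfold dn
            rw [Finset.inter_univ, Finset.card_univ, le_div_iff₀ hn]
            exact hS w hw
    have h2 : En W S B ≤ ((W.filter (fun w => ρ / 2 ≤ dn (S w) B)).card : ℝ) +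
        ρ ^ 2 / 4 * (W.card : ℝ) := by
      unfold En
      have h3 : ∀ w ∈ W, dn (S w) B ^ 2 ≤ (if ρ / 2 ≤ dn (S w) B then (1 : ℝ) else 0) +
          ρ ^ 2 / 4 := by
        intro w _
        by_cases h4 : ρ / 2 ≤ dn (S w) B
        · rw [if_pos h4]
          have h5 := en_sq_le_one (S w) B
          have h6 : 0 ≤ ρ ^ 2 / 4 := by positivity
          linarith
        · rw [if_neg h4]
          push Not at h4
          have h5 : dn (S w) B ^ 2 ≤ (ρ / 2) ^ 2 :=
            pow_le_pow_left₀ (dn_nonneg _ _) h4.le 2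
          have h6 : (ρ / 2) ^ 2 = ρ ^ 2 / 4 := by ring
          linarith
      calc ∑ w ∈ W, dn (S w) B ^ 2 ≤
            ∑ w ∈ W, ((if ρ / 2 ≤ dn (S w) B then (1 : ℝ) else 0) + ρ ^ 2 / 4) :=
            Finset.sum_le_sum h3
        _ = ((W.filter (fun w => ρ / 2 ≤ dn (S w) B)).card : ℝ) +
            ρ ^ 2 / 4 * (W.card : ℝ) := by
            rw [Finset.sum_add_distrib, Finset.sum_const, nsmul_eq_mul, Finset.sum_boole]
            ring
    have h7 : 0 ≤ ρ ^ 2 * (W.card : ℝ) := by positivity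
    linarith
  · intro A hA hA1
    have hb : (0 : ℝ) < (B.card : ℝ) := by exact_mod_cast hB0.card_pos
    have hA0 : A.Nonempty := by
      rw [← Finset.card_pos]
      have h1 : (0 : ℝ) < (A.card : ℝ) := lt_of_lt_of_le (mul_pos hβ hb) hA1
      exact_mod_cast h1
    have hA1' : β' * (B.card : ℝ) ≤ (A.card : ℝ) :=
      (mul_le_mul_of_nonneg_right hβ'β hb.le).trans hA1
    have h1 := stable_diff hβ'0 hβ'1 hκ0.le W S B hB0 hB3 A hA hA0 hA1'
    have h2 : max (κ / β') (β' ^ 2) ≤ θ * ρ ^ 2 / 16 := by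
      rw [hκβ]
      exact max_le (le_refl _) hβ'2
    have h3 : ((W.filter (fun w => ρ / 2 ≤ dn (S w) B ∧ dn (S w) A < ρ / 4)).card : ℝ) *
        (ρ ^ 2 / 16) ≤ ∑ w ∈ W, (dn (S w) A - dn (S w) B) ^ 2 := by
      calc ((W.filter (fun w => ρ / 2 ≤ dn (S w) B ∧ dn (S w) A < ρ / 4)).card : ℝ) *
            (ρ ^ 2 / 16) =
            ∑ _w ∈ W.filter (fun w => ρ / 2 ≤ dn (S w) B ∧ dn (S w) A < ρ / 4),
              ρ ^ 2 / 16 := by
            rw [Finset.sum_const, nsmul_eq_mul]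
        _ ≤ ∑ w ∈ W.filter (fun w => ρ / 2 ≤ dn (S w) B ∧ dn (S w) A < ρ / 4),
              (dn (S w) A - dn (S w) B) ^ 2 := by
            refine Finset.sum_le_sum ?_
            intro w hw
            obtain ⟨_, h4, h5⟩ := Finset.mem_filter.1 hw
            have h6 : ρ / 4 ≤ dn (S w) B - dn (S w) A := by linarith
            have h7 : (ρ / 4) ^ 2 ≤ (dn (S w) B - dn (S w) A) ^ 2 :=
              pow_le_pow_left₀ (by positivity) h6 2
            have h8 : (ρ / 4) ^ 2 = ρ ^ 2 / 16 := by ring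
            have h9 : (dn (S w) B - dn (S w) A) ^ 2 = (dn (S w) A - dn (S w) B) ^ 2 := by
              ring
            rw [← h8, ← h9]
            exact h7
        _ ≤ ∑ w ∈ W, (dn (S w) A - dn (S w) B) ^ 2 := by
            refine Finset.sum_le_sum_of_subset_of_nonneg (Finset.filter_subset _ _) ?_
            intro w _ _
            exact sq_nonneg _
    have h10 : ((W.filter (fun w => ρ / 2 ≤ dn (S w) B ∧ dn (S w) A < ρ / 4)).card : ℝ) *
        (ρ ^ 2 / 16) ≤ (θ * (W.card : ℝ)) * (ρ ^ 2 / 16) := by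
      refine h3.trans (h1.trans ?_)
      calc max (κ / β') (β' ^ 2) * (W.card : ℝ) ≤ θ * ρ ^ 2 / 16 * (W.card : ℝ) :=
            mul_le_mul_of_nonneg_right h2 hW0
        _ = (θ * (W.card : ℝ)) * (ρ ^ 2 / 16) := by ring
    exact le_of_mul_le_mul_right h10 (by positivity)

end

end Pool.Agent.Lib.MP_23961f_co.DP
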