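import Pool.Agent.Lib.MP_23961f_co.DP.Defs

/-!
In a graph without dense pairs: a list of `J` independent vertices each of which is the first
neighbour of many vertices, such that most vertices of large degree keep many neighbours that are
not adjacent to the list.
-/

set_option autoImplicit false

namespace Pool.Agent.Lib.MP_23961f_co.DP

open Pool.Agent.Lib.MP_23961f_co.K

section

variable {V : Type} [Fintype V]

open Classical in
/-- the vertices with few non-neighbours in `A` -/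
noncomputable def sel_bad (Γ : SimpleGraph V) (δ : ℝ) (A : Finset V) : Finset V :=
  Finset.univ.filter (fun z : V =>
    ((A.filter (fun w => ¬ Γ.Adj z w)).card : ℝ) < δ * (A.card : ℝ))

open Classical in
/-- the elements of `A` not adjacent to the list `z` -/
noncomputable def sel_fr (Γ : SimpleGraph V) (z : List V) (A : Finset V) : Finset V :=
  A.filter (fun y => ∀ a ∈ z, ¬ Γ.Adj a y)

open Classical in
/-- the neighbours of `w` -/
noncomputable def sel_nb (Γ : SimpleGraph V) (w : V) : Finset V :=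
  Finset.univ.filter (fun y => Γ.Adj w y)

open Classical in
theorem sel_mem_fr {Γ : SimpleGraph V} {z : List V} {A : Finset V} {y : V} :
    y ∈ sel_fr Γ z A ↔ y ∈ A ∧ ∀ a ∈ z, ¬ Γ.Adj a y := by
  unfold sel_fr
  exact Finset.mem_filter

theorem sel_mem_nb {Γ : SimpleGraph V} {w y : V} : y ∈ sel_nb Γ w ↔ Γ.Adj w y := by
  unfold sel_nb
  simp

theorem sel_bad_card {Γ : SimpleGraph V} {η δ : ℝ} (h : ND Γ η δ) {A : Finset V}
    (hA : η * (Fintype.card V : ℝ) ≤ (A.card : ℝ)) :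
    ((sel_bad Γ δ A).card : ℝ) ≤ η * (Fintype.card V : ℝ) := h A hA

open Classical in
theorem sel_fr_snoc (Γ : SimpleGraph V) (z : List V) (c : V) (A : Finset V) :
    sel_fr Γ (z ++ [c]) A = (sel_fr Γ z A).filter (fun w => ¬ Γ.Adj c w) := by
  ext y
  rw [sel_mem_fr, Finset.mem_filter, sel_mem_fr]
  constructor
  · rintro ⟨h1, h2⟩
    exact ⟨⟨h1, fun a ha => h2 a (List.mem_append_left _ ha)⟩,
      h2 c (List.mem_append_right _ (List.mem_singleton.2 rfl))⟩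
  · rintro ⟨⟨h1, h2⟩, h3⟩
    refine ⟨h1, ?_⟩
    intro a ha
    rcases List.mem_append.1 ha with ha | ha
    · exact h2 a ha
    · rw [List.mem_singleton.1 ha]
      exact h3

open Classical in
theorem sel_fr_step {Γ : SimpleGraph V} {δ : ℝ} {z : List V} {c : V} {A : Finset V}
    (hc : c ∉ sel_bad Γ δ (sel_fr Γ z A)) :
    δ * ((sel_fr Γ z A).card : ℝ) ≤ ((sel_fr Γ (z ++ [c]) A).card : ℝ) := by
  rw [sel_fr_snoc]
  by_contra h
  push Not at h
  exact hc (Finset.mem_filter.2 ⟨Finset.mem_univ _, h⟩)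

omit [Fintype V] in
theorem sel_fst_append {Γ : SimpleGraph V} {z L : List V} {y a : V} (h : fst Γ z y = some a) :
    fst Γ (z ++ L) y = some a := by
  classical
  unfold fst at h ⊢
  rw [List.find?_append, h]
  rfl

omit [Fintype V] in
theorem sel_fst_new {Γ : SimpleGraph V} {z : List V} {y c : V} (h1 : ∀ a ∈ z, ¬ Γ.Adj y a)
    (h2 : Γ.Adj y c) : fst Γ (z ++ [c]) y = some c := by
  classical
  unfold fst
  have h3 : z.find? (fun k => decide (Γ.Adj y k)) = none := by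
    rw [List.find?_eq_none]
    intro a ha
    have h4 := h1 a ha
    simp [h4]
  rw [List.find?_append, h3]
  simp [h2]

open Classical in
/-- the state after `i` choices -/
structure SelSt (Γ : SimpleGraph V) (δ ρ ζ ε₁ : ℝ) (Us Hv : Finset V) (i : ℕ) (z : List V)
    (Lost : Finset V) : Prop where
  nodup : z.Nodup
  len : z.length = i
  us : ∀ a ∈ z, a ∈ Us
  ind : ∀ a ∈ z, ∀ b ∈ z, ¬ Γ.Adj a b
  lost : (Lost.card : ℝ) ≤ (i : ℝ) * (ε₁ * (Fintype.card V : ℝ))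
  hU : δ ^ i * (ζ * (Fintype.card V : ℝ)) ≤ ((sel_fr Γ z Us).card : ℝ)
  hA : ∀ w ∈ Hv, w ∉ Lost →
    δ ^ i * (ρ * (Fintype.card V : ℝ)) ≤ ((sel_fr Γ z (sel_nb Γ w)).card : ℝ)
  hF : ∀ a ∈ z, δ ^ i * (ρ * (Fintype.card V : ℝ)) ≤
    ((Finset.univ.filter (fun y => fst Γ z y = some a)).card : ℝ)

theorem sel_start {Γ : SimpleGraph V} {δ ρ ζ ε₁ : ℝ} {Us Hv : Finset V}
    (hU : ζ * (Fintype.card V : ℝ) ≤ (Us.card : ℝ))
    (hH : ∀ w ∈ Hv, ρ * (Fintype.card V : ℝ) ≤ (dg Γ w : ℝ)) :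
    SelSt Γ δ ρ ζ ε₁ Us Hv 0 [] ∅ := by
  have h1 : ∀ A : Finset V, sel_fr Γ [] A = A := by
    intro A
    ext y
    rw [sel_mem_fr]
    constructor
    · exact fun h => h.1
    · intro h
      exact ⟨h, fun a ha => absurd ha (List.not_mem_nil)⟩
  refine ⟨List.nodup_nil, rfl, ?_, ?_, ?_, ?_, ?_, ?_⟩
  · intro a ha
    exact absurd ha (List.not_mem_nil)
  · intro a ha
    exact absurd ha (List.not_mem_nil)
  · simp
  · rw [h1, pow_zero, one_mul]
    exact hU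
  · intro w hw _
    rw [h1, pow_zero, one_mul]
    exact hH w hw
  · intro a ha
    exact absurd ha (List.not_mem_nil)

open Classical in
/-- Double counting: few vertices are bad for many of the sets. -/
theorem sel_double {Γ : SimpleGraph V} {η δ ε₁ : ℝ} (hε₁ : 0 < ε₁) (hη : 0 ≤ η)
    (hn : 0 < (Fintype.card V : ℝ)) (W : Finset V) (A : V → Finset V)
    (hA : ∀ w ∈ W, ((sel_bad Γ δ (A w)).card : ℝ) ≤ η * (Fintype.card V : ℝ)) :
    ((Finset.univ.filter (fun c : V => ε₁ * (Fintype.card V : ℝ) <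
      ((W.filter (fun w => c ∈ sel_bad Γ δ (A w))).card : ℝ))).card : ℝ) ≤
      η / ε₁ * (Fintype.card V : ℝ) := by
  have h1 : ((Finset.univ.filter (fun c : V => ε₁ * (Fintype.card V : ℝ) <
      ((W.filter (fun w => c ∈ sel_bad Γ δ (A w))).card : ℝ))).card : ℝ) *
      (ε₁ * (Fintype.card V : ℝ)) ≤ (W.card : ℝ) * (η * (Fintype.card V : ℝ)) := by
    calc ((Finset.univ.filter (fun c : V => ε₁ * (Fintype.card V : ℝ) <
          ((W.filter (fun w => c ∈ sel_bad Γ δ (A w))).card : ℝ))).card : ℝ) *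
          (ε₁ * (Fintype.card V : ℝ)) =
          ∑ _c ∈ Finset.univ.filter (fun c : V => ε₁ * (Fintype.card V : ℝ) <
            ((W.filter (fun w => c ∈ sel_bad Γ δ (A w))).card : ℝ)),
            ε₁ * (Fintype.card V : ℝ) := by
          rw [Finset.sum_const, nsmul_eq_mul]
      _ ≤ ∑ c ∈ Finset.univ.filter (fun c : V => ε₁ * (Fintype.card V : ℝ) <
            ((W.filter (fun w => c ∈ sel_bad Γ δ (A w))).card : ℝ)),
            ((W.filter (fun w => c ∈ sel_bad Γ δ (A w))).card : ℝ) := by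
          refine Finset.sum_le_sum ?_
          intro c hc
          exact (Finset.mem_filter.1 hc).2.le
      _ ≤ ∑ c : V, ((W.filter (fun w => c ∈ sel_bad Γ δ (A w))).card : ℝ) := by
          refine Finset.sum_le_sum_of_subset_of_nonneg (Finset.filter_subset _ _) ?_
          intro c _ _
          exact Nat.cast_nonneg _
      _ = ∑ w ∈ W, ((sel_bad Γ δ (A w)).card : ℝ) := by
          have h2 : ∑ c : V, (W.filter (fun w => c ∈ sel_bad Γ δ (A w))).card =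
              ∑ w ∈ W, (sel_bad Γ δ (A w)).card := by
            simp only [Finset.card_filter]
            rw [Finset.sum_comm]
            refine Finset.sum_congr rfl ?_
            intro w _
            rw [← Finset.card_filter]
            congr 1
            ext c
            simp
          exact_mod_cast h2
      _ ≤ ∑ _w ∈ W, η * (Fintype.card V : ℝ) := Finset.sum_le_sum hA
      _ = (W.card : ℝ) * (η * (Fintype.card V : ℝ)) := by
          rw [Finset.sum_const, nsmul_eq_mul]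
  have h2 : (W.card : ℝ) ≤ (Fintype.card V : ℝ) := by
    exact_mod_cast Finset.card_le_univ W
  have h3 : (W.card : ℝ) * (η * (Fintype.card V : ℝ)) ≤
      (η / ε₁ * (Fintype.card V : ℝ)) * (ε₁ * (Fintype.card V : ℝ)) := by
    calc (W.card : ℝ) * (η * (Fintype.card V : ℝ)) ≤
          (Fintype.card V : ℝ) * (η * (Fintype.card V : ℝ)) :=
          mul_le_mul_of_nonneg_right h2 (mul_nonneg hη hn.le)
      _ = (η / ε₁ * (Fintype.card V : ℝ)) * (ε₁ * (Fintype.card V : ℝ)) := by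
          field_simp
  exact le_of_mul_le_mul_right (h1.trans h3) (mul_pos hε₁ hn)

open Classical in
theorem sel_step {Γ : SimpleGraph V} {η δ ρ ζ ε₁ : ℝ} {J i : ℕ} {Us Hv : Finset V}
    (hδ : 0 < δ) (hδ1 : δ ≤ 1) (hρ : 0 < ρ) (hζ : 0 < ζ) (hε₁ : 0 < ε₁) (hη : 0 < η)
    (hn : 0 < (Fintype.card V : ℝ)) (hND : ND Γ η δ) (hUH : Us ⊆ Hv)
    (hη1 : η ≤ δ ^ J * ζ / 8) (hη2 : η ≤ δ ^ J * ρ) (hη3 : η / ε₁ ≤ δ ^ J * ζ / 8)
    (hJ1 : (J : ℝ) * ε₁ ≤ δ ^ J * ζ / 8)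
    (hJ2 : (J : ℝ) ≤ δ ^ J * ζ / 8 * (Fintype.card V : ℝ)) (hi : i < J)
    {z : List V} {Lost : Finset V} (h : SelSt Γ δ ρ ζ ε₁ Us Hv i z Lost) :
    ∃ (z' : List V) (Lost' : Finset V), SelSt Γ δ ρ ζ ε₁ Us Hv (i + 1) z' Lost' := by
  have hδi : δ ^ J ≤ δ ^ i := pow_le_pow_of_le_one hδ.le hδ1 hi.le
  have hn0 : (0 : ℝ) ≤ (Fintype.card V : ℝ) := hn.le
  have hδJ0 : 0 < δ ^ J := pow_pos hδ J
  -- the sets are large
  have hUbig : δ ^ J * ζ * (Fintype.card V : ℝ) ≤ ((sel_fr Γ z Us).card : ℝ) := by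
    refine le_trans ?_ h.hU
    calc δ ^ J * ζ * (Fintype.card V : ℝ) = δ ^ J * (ζ * (Fintype.card V : ℝ)) := by ring
      _ ≤ δ ^ i * (ζ * (Fintype.card V : ℝ)) :=
        mul_le_mul_of_nonneg_right hδi (mul_nonneg hζ.le hn0)
  have hUη : η * (Fintype.card V : ℝ) ≤ ((sel_fr Γ z Us).card : ℝ) := by
    refine le_trans (mul_le_mul_of_nonneg_right ?_ hn0) hUbig
    have h0 : 0 ≤ δ ^ J * ζ := mul_nonneg hδJ0.le hζ.le
    linarith
  have hAη : ∀ w ∈ Hv \ Lost, η * (Fintype.card V : ℝ) ≤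
      ((sel_fr Γ z (sel_nb Γ w)).card : ℝ) := by
    intro w hw
    obtain ⟨hw1, hw2⟩ := Finset.mem_sdiff.1 hw
    refine le_trans ?_ (h.hA w hw1 hw2)
    calc η * (Fintype.card V : ℝ) ≤ δ ^ J * ρ * (Fintype.card V : ℝ) :=
          mul_le_mul_of_nonneg_right hη2 hn0
      _ = δ ^ J * (ρ * (Fintype.card V : ℝ)) := by ring
      _ ≤ δ ^ i * (ρ * (Fintype.card V : ℝ)) :=
        mul_le_mul_of_nonneg_right hδi (mul_nonneg hρ.le hn0)
  -- the excluded sets
  have hb1 : ((sel_bad Γ δ (sel_fr Γ z Us)).card : ℝ) ≤ η * (Fintype.card V : ℝ) :=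
    sel_bad_card hND hUη
  have hb2 := sel_double (Γ := Γ) (δ := δ) hε₁ hη.le hn (Hv \ Lost)
    (fun w => sel_fr Γ z (sel_nb Γ w)) (fun w hw => sel_bad_card hND (hAη w hw))
  obtain ⟨BB, hBBdef⟩ : ∃ BB : Finset V, BB = Finset.univ.filter (fun c : V =>
      ε₁ * (Fintype.card V : ℝ) < (((Hv \ Lost).filter
        (fun w => c ∈ sel_bad Γ δ (sel_fr Γ z (sel_nb Γ w)))).card : ℝ)) := ⟨_, rfl⟩
  have hb2' : (BB.card : ℝ) ≤ η / ε₁ * (Fintype.card V : ℝ) := by
    rw [hBBdef]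
    exact hb2
  have hb3 : (z.toFinset.card : ℝ) ≤ (J : ℝ) := by
    have h1 : z.toFinset.card ≤ z.length := List.toFinset_card_le z
    have h2 : z.toFinset.card ≤ J := by
      rw [h.len] at h1
      omega
    exact_mod_cast h2
  have hb4 : (Lost.card : ℝ) ≤ δ ^ J * ζ / 8 * (Fintype.card V : ℝ) := by
    refine h.lost.trans ?_
    have h1 : (i : ℝ) ≤ (J : ℝ) := by exact_mod_cast hi.le
    calc (i : ℝ) * (ε₁ * (Fintype.card V : ℝ)) ≤ (J : ℝ) * (ε₁ * (Fintype.card V : ℝ)) :=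
          mul_le_mul_of_nonneg_right h1 (mul_nonneg hε₁.le hn0)
      _ = (J : ℝ) * ε₁ * (Fintype.card V : ℝ) := by ring
      _ ≤ δ ^ J * ζ / 8 * (Fintype.card V : ℝ) := mul_le_mul_of_nonneg_right hJ1 hn0
  have hb5 : (((Lost ∪ z.toFinset) ∪ (sel_bad Γ δ (sel_fr Γ z Us) ∪ BB)).card : ℝ) <
      ((sel_fr Γ z Us).card : ℝ) := by
    have h1 : ((Lost ∪ z.toFinset) ∪ (sel_bad Γ δ (sel_fr Γ z Us) ∪ BB)).card ≤
        (Lost.card + z.toFinset.card) + ((sel_bad Γ δ (sel_fr Γ z Us)).card + BB.card) := by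
      refine (Finset.card_union_le _ _).trans ?_
      exact add_le_add (Finset.card_union_le _ _) (Finset.card_union_le _ _)
    have h2 : (((Lost ∪ z.toFinset) ∪ (sel_bad Γ δ (sel_fr Γ z Us) ∪ BB)).card : ℝ) ≤
        ((Lost.card : ℝ) + (z.toFinset.card : ℝ)) +
        (((sel_bad Γ δ (sel_fr Γ z Us)).card : ℝ) + (BB.card : ℝ)) := by
      exact_mod_cast h1
    have h3 : η * (Fintype.card V : ℝ) ≤ δ ^ J * ζ / 8 * (Fintype.card V : ℝ) :=
      mul_le_mul_of_nonneg_right hη1 hn0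
    have h4 : η / ε₁ * (Fintype.card V : ℝ) ≤ δ ^ J * ζ / 8 * (Fintype.card V : ℝ) :=
      mul_le_mul_of_nonneg_right hη3 hn0
    have h5 : 0 < δ ^ J * ζ * (Fintype.card V : ℝ) := mul_pos (mul_pos hδJ0 hζ) hn
    have h6 : δ ^ J * ζ / 8 * (Fintype.card V : ℝ) =
        δ ^ J * ζ * (Fintype.card V : ℝ) / 8 := by ring
    rw [h6] at h3 h4 hb4 hJ2
    linarith
  obtain ⟨c, hc1, hc2⟩ : ∃ c ∈ sel_fr Γ z Us,
      c ∉ (Lost ∪ z.toFinset) ∪ (sel_bad Γ δ (sel_fr Γ z Us) ∪ BB) := by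
    by_contra hcon
    push Not at hcon
    have h1 : (sel_fr Γ z Us).card ≤
        ((Lost ∪ z.toFinset) ∪ (sel_bad Γ δ (sel_fr Γ z Us) ∪ BB)).card :=
      Finset.card_le_card hcon
    have h2 : ((sel_fr Γ z Us).card : ℝ) ≤
        (((Lost ∪ z.toFinset) ∪ (sel_bad Γ δ (sel_fr Γ z Us) ∪ BB)).card : ℝ) := by
      exact_mod_cast h1
    exact absurd hb5 (not_lt.2 h2)
  simp only [Finset.mem_union, List.mem_toFinset, not_or] at hc2
  obtain ⟨⟨hcL, hcz⟩, hcU, hcB⟩ := hc2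
  obtain ⟨hcUs, hcfree⟩ := sel_mem_fr.1 hc1
  have hcB' : (((Hv \ Lost).filter
      (fun w => c ∈ sel_bad Γ δ (sel_fr Γ z (sel_nb Γ w)))).card : ℝ) ≤
      ε₁ * (Fintype.card V : ℝ) := by
    by_contra hcon
    push Not at hcon
    apply hcB
    rw [hBBdef]
    exact Finset.mem_filter.2 ⟨Finset.mem_univ _, hcon⟩
  refine ⟨z ++ [c], Lost ∪ (Hv \ Lost).filter
    (fun w => c ∈ sel_bad Γ δ (sel_fr Γ z (sel_nb Γ w))), ?_, ?_, ?_, ?_, ?_, ?_, ?_, ?_⟩
  · rw [List.nodup_append]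
    refine ⟨h.nodup, List.nodup_singleton c, ?_⟩
    intro a ha b hb hab
    rw [List.mem_singleton.1 hb] at hab
    rw [hab] at ha
    exact hcz ha
  · rw [List.length_append, h.len]
    rfl
  · intro a ha
    rcases List.mem_append.1 ha with ha | ha
    · exact h.us a ha
    · rw [List.mem_singleton.1 ha]
      exact hcUs
  · intro a ha b hb
    rcases List.mem_append.1 ha with ha | ha
    · rcases List.mem_append.1 hb with hb | hb
      · exact h.ind a ha b hb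
      · rw [List.mem_singleton.1 hb]
        exact hcfree a ha
    · rcases List.mem_append.1 hb with hb | hb
      · rw [List.mem_singleton.1 ha]
        intro hab
        exact hcfree b hb hab.symm
      · rw [List.mem_singleton.1 ha, List.mem_singleton.1 hb]
        exact Γ.loopless.irrefl c
  · have h1 : ((Lost ∪ (Hv \ Lost).filter
        (fun w => c ∈ sel_bad Γ δ (sel_fr Γ z (sel_nb Γ w)))).card : ℝ) ≤
        (Lost.card : ℝ) + (((Hv \ Lost).filter
        (fun w => c ∈ sel_bad Γ δ (sel_fr Γ z (sel_nb Γ w)))).card : ℝ) := by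
      exact_mod_cast Finset.card_union_le _ _
    refine h1.trans ?_
    have h2 : ((i + 1 : ℕ) : ℝ) * (ε₁ * (Fintype.card V : ℝ)) =
        (i : ℝ) * (ε₁ * (Fintype.card V : ℝ)) + ε₁ * (Fintype.card V : ℝ) := by
      push_cast
      ring
    rw [h2]
    exact add_le_add h.lost hcB'
  · have h1 := sel_fr_step hcU
    refine le_trans ?_ h1
    calc δ ^ (i + 1) * (ζ * (Fintype.card V : ℝ)) =
          δ * (δ ^ i * (ζ * (Fintype.card V : ℝ))) := by ring
      _ ≤ δ * ((sel_fr Γ z Us).card : ℝ) := mul_le_mul_of_nonneg_left h.hU hδ.le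
  · intro w hw hwL
    rw [Finset.mem_union, not_or] at hwL
    obtain ⟨hwL1, hwL2⟩ := hwL
    have h1 : c ∉ sel_bad Γ δ (sel_fr Γ z (sel_nb Γ w)) := by
      intro h2
      exact hwL2 (Finset.mem_filter.2 ⟨Finset.mem_sdiff.2 ⟨hw, hwL1⟩, h2⟩)
    refine le_trans ?_ (sel_fr_step h1)
    calc δ ^ (i + 1) * (ρ * (Fintype.card V : ℝ)) =
          δ * (δ ^ i * (ρ * (Fintype.card V : ℝ))) := by ring
      _ ≤ δ * ((sel_fr Γ z (sel_nb Γ w)).card : ℝ) :=
        mul_le_mul_of_nonneg_left (h.hA w hw hwL1) hδ.le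
  · have hpow : δ ^ (i + 1) * (ρ * (Fintype.card V : ℝ)) ≤
        δ ^ i * (ρ * (Fintype.card V : ℝ)) := by
      refine mul_le_mul_of_nonneg_right ?_ (mul_nonneg hρ.le hn0)
      exact pow_le_pow_of_le_one hδ.le hδ1 (Nat.le_succ i)
    intro a ha
    refine hpow.trans ?_
    rcases List.mem_append.1 ha with ha | ha
    · refine (h.hF a ha).trans ?_
      have h1 : (Finset.univ.filter (fun y => fst Γ z y = some a)).card ≤
          (Finset.univ.filter (fun y => fst Γ (z ++ [c]) y = some a)).card := by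
        refine Finset.card_le_card ?_
        intro y hy
        exact Finset.mem_filter.2 ⟨Finset.mem_univ _,
          sel_fst_append (Finset.mem_filter.1 hy).2⟩
      exact_mod_cast h1
    · rw [List.mem_singleton.1 ha]
      refine (h.hA c (hUH hcUs) hcL).trans ?_
      have h1 : (sel_fr Γ z (sel_nb Γ c)).card ≤
          (Finset.univ.filter (fun y => fst Γ (z ++ [c]) y = some c)).card := by
        refine Finset.card_le_card ?_
        intro y hy
        obtain ⟨h2, h3⟩ := sel_mem_fr.1 hy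
        refine Finset.mem_filter.2 ⟨Finset.mem_univ _, sel_fst_new ?_ (sel_mem_nb.1 h2).symm⟩
        intro a ha hya
        exact h3 a ha hya.symm
      exact_mod_cast h1

end

open Classical in
theorem exists_select {δ ρ ζ ε : ℝ} (hδ : 0 < δ) (hδ1 : δ ≤ 1) (hρ : 0 < ρ) (hζ : 0 < ζ)
    (hε : 0 < ε) (J : ℕ) :
    ∃ η : ℝ, 0 < η ∧ ∃ n₀ : ℕ, ∀ (V : Type) [Fintype V] (Γ : SimpleGraph V)
      (Us Hv : Finset V), n₀ ≤ Fintype.card V → ND Γ η δ → Us ⊆ Hv →
      ζ * (Fintype.card V : ℝ) ≤ (Us.card : ℝ) →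
      (∀ w ∈ Hv, ρ * (Fintype.card V : ℝ) ≤ (dg Γ w : ℝ)) →
      ∃ z : List V, z.Nodup ∧ z.length = J ∧ (∀ a ∈ z, a ∈ Us) ∧
        (∀ a ∈ z, ∀ b ∈ z, ¬ Γ.Adj a b) ∧
        (∀ a ∈ z, δ ^ J * ρ / 2 * (Fintype.card V : ℝ) ≤
          ((Finset.univ.filter (fun y => fst Γ z y = some a)).card : ℝ)) ∧
        ((Hv.filter (fun w => ((Finset.univ.filter (fun y => Γ.Adj w y ∧ y ∉ z ∧
          ∀ a ∈ z, ¬ Γ.Adj a y)).card : ℝ) < δ ^ J * ρ / 2 * (Fintype.card V : ℝ))).card : ℝ) ≤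
          ε * (Fintype.card V : ℝ) := by
  have hδJ : 0 < δ ^ J := pow_pos hδ J
  have hJ1 : (0 : ℝ) < (J : ℝ) + 1 := by positivity
  have hJ0 : (0 : ℝ) ≤ (J : ℝ) := Nat.cast_nonneg _
  have hq : 0 < δ ^ J * ζ / 8 := by positivity
  have hr : 0 < δ ^ J * ρ := by positivity
  obtain ⟨ε₁, hε₁def⟩ : ∃ ε₁ : ℝ, ε₁ = min (ε / ((J : ℝ) + 1))
    ((δ ^ J * ζ / 8) / ((J : ℝ) + 1)) := ⟨_, rfl⟩
  have hε₁0 : 0 < ε₁ := by
    rw [hε₁def]
    exact lt_min (div_pos hε hJ1) (div_pos hq hJ1)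
  have hJε : (J : ℝ) * ε₁ ≤ ε := by
    have h1 : ε₁ ≤ ε / ((J : ℝ) + 1) := by
      rw [hε₁def]
      exact min_le_left _ _
    have h2 : ε₁ * ((J : ℝ) + 1) ≤ ε := by
      rwa [le_div_iff₀ hJ1] at h1
    linarith
  have hJq : (J : ℝ) * ε₁ ≤ δ ^ J * ζ / 8 := by
    have h1 : ε₁ ≤ (δ ^ J * ζ / 8) / ((J : ℝ) + 1) := by
      rw [hε₁def]
      exact min_le_right _ _
    have h2 : ε₁ * ((J : ℝ) + 1) ≤ δ ^ J * ζ / 8 := by
      rwa [le_div_iff₀ hJ1] at h1
    linarith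
  obtain ⟨η, hηdef⟩ : ∃ η : ℝ, η = min (min (δ ^ J * ζ / 8) (δ ^ J * ρ))
    (ε₁ * (δ ^ J * ζ / 8)) := ⟨_, rfl⟩
  have hη0 : 0 < η := by
    rw [hηdef]
    exact lt_min (lt_min hq hr) (mul_pos hε₁0 hq)
  have hη1 : η ≤ δ ^ J * ζ / 8 := by
    rw [hηdef]
    exact (min_le_left _ _).trans (min_le_left _ _)
  have hη2 : η ≤ δ ^ J * ρ := by
    rw [hηdef]
    exact (min_le_left _ _).trans (min_le_right _ _)
  have hη3 : η / ε₁ ≤ δ ^ J * ζ / 8 := by
    rw [div_le_iff₀ hε₁0]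
    have h1 : η ≤ ε₁ * (δ ^ J * ζ / 8) := by
      rw [hηdef]
      exact min_le_right _ _
    linarith
  refine ⟨η, hη0, ⌈(J : ℝ) / (δ ^ J * ζ / 8)⌉₊ + ⌈2 * (J : ℝ) / (δ ^ J * ρ)⌉₊ + 1, ?_⟩
  intro V _ Γ Us Hv hn hND hUH hU hH
  have hnpos : 0 < Fintype.card V := by omega
  have hnR : (0 : ℝ) < (Fintype.card V : ℝ) := by exact_mod_cast hnpos
  have hnJ : (J : ℝ) ≤ δ ^ J * ζ / 8 * (Fintype.card V : ℝ) := by
    have h1 : (J : ℝ) / (δ ^ J * ζ / 8) ≤ (⌈(J : ℝ) / (δ ^ J * ζ / 8)⌉₊ : ℝ) := Nat.le_ceil _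
    have h2 : ⌈(J : ℝ) / (δ ^ J * ζ / 8)⌉₊ ≤ Fintype.card V := by omega
    have h3 : (⌈(J : ℝ) / (δ ^ J * ζ / 8)⌉₊ : ℝ) ≤ (Fintype.card V : ℝ) := by exact_mod_cast h2
    have h4 := h1.trans h3
    rw [div_le_iff₀ hq] at h4
    linarith
  have hnJ2 : 2 * (J : ℝ) ≤ δ ^ J * ρ * (Fintype.card V : ℝ) := by
    have h1 : 2 * (J : ℝ) / (δ ^ J * ρ) ≤ (⌈2 * (J : ℝ) / (δ ^ J * ρ)⌉₊ : ℝ) := Nat.le_ceil _
    have h2 : ⌈2 * (J : ℝ) / (δ ^ J * ρ)⌉₊ ≤ Fintype.card V := by omega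
    have h3 : (⌈2 * (J : ℝ) / (δ ^ J * ρ)⌉₊ : ℝ) ≤ (Fintype.card V : ℝ) := by exact_mod_cast h2
    have h4 := h1.trans h3
    rw [div_le_iff₀ hr] at h4
    linarith
  have key : ∀ i : ℕ, i ≤ J → ∃ (z : List V) (Lost : Finset V),
      SelSt Γ δ ρ ζ ε₁ Us Hv i z Lost := by
    intro i
    induction i with
    | zero =>
      intro _
      exact ⟨[], ∅, sel_start hU hH⟩
    | succ i ih =>
      intro hi
      obtain ⟨z, Lost, hz⟩ := ih (by omega)
      exact sel_step hδ hδ1 hρ hζ hε₁0 hη0 hnR hND hUH hη1 hη2 hη3 hJq hnJ (by omega) hz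
  obtain ⟨z, Lost, hz⟩ := key J (le_refl J)
  refine ⟨z, hz.nodup, hz.len, hz.us, hz.ind, ?_, ?_⟩
  · intro a ha
    refine le_trans ?_ (hz.hF a ha)
    have h1 : 0 ≤ δ ^ J * ρ * (Fintype.card V : ℝ) := by positivity
    have h2 : δ ^ J * ρ / 2 * (Fintype.card V : ℝ) =
        δ ^ J * ρ * (Fintype.card V : ℝ) / 2 := by ring
    have h3 : δ ^ J * (ρ * (Fintype.card V : ℝ)) = δ ^ J * ρ * (Fintype.card V : ℝ) := by ring
    rw [h2, h3]
    linarith
  · have hsub : (Hv.filter (fun w => ((Finset.univ.filter (fun y => Γ.Adj w y ∧ y ∉ z ∧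
          ∀ a ∈ z, ¬ Γ.Adj a y)).card : ℝ) <
          δ ^ J * ρ / 2 * (Fintype.card V : ℝ))) ⊆ Lost := by
      intro w hw
      obtain ⟨hw1, hw2⟩ := Finset.mem_filter.1 hw
      by_contra hwL
      have h1 := hz.hA w hw1 hwL
      have h2 : (sel_fr Γ z (sel_nb Γ w)).card ≤
          (Finset.univ.filter (fun y => Γ.Adj w y ∧ y ∉ z ∧ ∀ a ∈ z, ¬ Γ.Adj a y)).card +
          z.toFinset.card := by
        refine le_trans (Finset.card_le_card ?_) (Finset.card_union_le _ _)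
        intro y hy
        obtain ⟨h3, h4⟩ := sel_mem_fr.1 hy
        rw [Finset.mem_union]
        by_cases hyz : y ∈ z
        · exact Or.inr (List.mem_toFinset.2 hyz)
        · exact Or.inl (Finset.mem_filter.2 ⟨Finset.mem_univ _, sel_mem_nb.1 h3, hyz, h4⟩)
      have h3 : z.toFinset.card ≤ J := by
        rw [← hz.len]
        exact List.toFinset_card_le z
      have h4 : ((sel_fr Γ z (sel_nb Γ w)).card : ℝ) ≤
          ((Finset.univ.filter (fun y => Γ.Adj w y ∧ y ∉ z ∧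
            ∀ a ∈ z, ¬ Γ.Adj a y)).card : ℝ) + (J : ℝ) := by
        have h5 := h2.trans (Nat.add_le_add_left h3 _)
        exact_mod_cast h5
      have h6 : δ ^ J * ρ / 2 * (Fintype.card V : ℝ) =
          δ ^ J * ρ * (Fintype.card V : ℝ) / 2 := by ring
      have h7 : δ ^ J * (ρ * (Fintype.card V : ℝ)) =
          δ ^ J * ρ * (Fintype.card V : ℝ) := by ring
      rw [h6] at hw2
      rw [h7] at h1
      linarith
    have h1 : ((Hv.filter (fun w => ((Finset.univ.filter (fun y => Γ.Adj w y ∧ y ∉ z ∧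
          ∀ a ∈ z, ¬ Γ.Adj a y)).card : ℝ) <
          δ ^ J * ρ / 2 * (Fintype.card V : ℝ))).card : ℝ) ≤ (Lost.card : ℝ) := by
      exact_mod_cast Finset.card_le_card hsub
    refine h1.trans (hz.lost.trans ?_)
    calc (J : ℝ) * (ε₁ * (Fintype.card V : ℝ)) = (J : ℝ) * ε₁ * (Fintype.card V : ℝ) := by ring
      _ ≤ ε * (Fintype.card V : ℝ) := mul_le_mul_of_nonneg_right hJε hnR.le

end Pool.Agent.Lib.MP_23961f_co.DP
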