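import Pool.Agent.Lib.MP_23961f_co.DP.Hit
import Pool.Agent.Lib.MP_23961f_co.DP.Select

/-!
A graph without dense pairs with degrees at most `D`, `D` linear, can be emptied by `D - c n`
rounds.
-/

set_option autoImplicit false

namespace Pool.Agent.Lib.MP_23961f_co.DP

open Pool.Agent.Lib.MP_23961f_co.K

section

variable {V : Type} [Fintype V]

open Classical in
/-- a vertex with a neighbour in the list loses an edge -/
theorem gain_lose {Γ : SimpleGraph V} {I : List V} {w a : V} (ha : a ∈ I) (hw : Γ.Adj w a) :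
    dg (roundL Γ I) w + 1 ≤ dg Γ w := by
  obtain ⟨k, hk⟩ := fst_isSome (G := Γ) (I := I) ha hw
  have hkv := (fst_eq_some hk).2
  have h1 : Finset.univ.filter (fun y => (roundL Γ I).Adj w y) ⊆
      (Finset.univ.filter (fun y => Γ.Adj w y)).erase k := by
    intro y hy
    have h2 := (Finset.mem_filter.1 hy).2
    refine Finset.mem_erase.2 ⟨?_, Finset.mem_filter.2 ⟨Finset.mem_univ _, h2.1⟩⟩
    rintro rfl
    exact h2.2.1 hk
  have h2 := Finset.card_le_card h1
  have hmem : k ∈ Finset.univ.filter (fun y => Γ.Adj w y) :=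
    Finset.mem_filter.2 ⟨Finset.mem_univ _, hkv⟩
  rw [Finset.card_erase_of_mem hmem] at h2
  have h3 : 0 < (Finset.univ.filter (fun y => Γ.Adj w y)).card := Finset.card_pos.2 ⟨k, hmem⟩
  have h4 : dg (roundL Γ I) w ≤ dg Γ w - 1 := h2
  have h5 : 0 < dg Γ w := h3
  omega

open Classical in
/-- a vertex loses the edges to all vertices of which it is the first neighbour in the list -/
theorem gain_first (Γ : SimpleGraph V) (I : List V) (a : V) :
    (Finset.univ.filter (fun y => fst Γ I y = some a)).card + dg (roundL Γ I) a ≤ dg Γ a := by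
  unfold dg
  rw [← Finset.card_union_of_disjoint]
  · refine Finset.card_le_card ?_
    intro y hy
    rcases Finset.mem_union.1 hy with h | h
    · have h1 := (Finset.mem_filter.1 h).2
      exact Finset.mem_filter.2 ⟨Finset.mem_univ _, (fst_eq_some h1).2.symm⟩
    · have h1 := (Finset.mem_filter.1 h).2
      exact Finset.mem_filter.2 ⟨Finset.mem_univ _, h1.1⟩
  · rw [Finset.disjoint_left]
    intro y h1 h2
    exact (Finset.mem_filter.1 h2).2.2.2 (Finset.mem_filter.1 h1).2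

open Classical in
theorem gain_append {Γ : SimpleGraph V} {z L : List V} {y a : V} (h : fst Γ z y = some a) :
    fst Γ (z ++ L) y = some a := by
  unfold fst at h ⊢
  rw [List.find?_append, h]
  rfl

open Classical in
theorem gain_dg_le (Γ : SimpleGraph V) (I : List V) (w : V) : dg (roundL Γ I) w ≤ dg Γ w := by
  refine Finset.card_le_card ?_
  intro y hy
  exact Finset.mem_filter.2 ⟨Finset.mem_univ _, (Finset.mem_filter.1 hy).2.1⟩

end

open Classical in
/-- One round: a list starting with `J` selected vertices. `Us`: vertices of degree at least `ρ n`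
not yet selected. -/
theorem gain_round {δ ρ ζ ε : ℝ} (hδ : 0 < δ) (hδ1 : δ ≤ 1) (hρ : 0 < ρ) (hρ1 : ρ ≤ 1)
    (hζ : 0 < ζ) (hε : 0 < ε) (J : ℕ) :
    ∃ η : ℝ, 0 < η ∧ ∃ n₀ : ℕ, ∀ (V : Type) [Fintype V] (Γ : SimpleGraph V)
      (Us Hv : Finset V), n₀ ≤ Fintype.card V → ND Γ η δ → Us ⊆ Hv →
      (∀ w ∈ Hv, ρ * (Fintype.card V : ℝ) ≤ (dg Γ w : ℝ)) →
      ∃ (I : List V) (Z : Finset V), I.Pairwise (fun a b => ¬ Γ.Adj a b) ∧ Z ⊆ Us ∧
        (ζ * (Fintype.card V : ℝ) ≤ (Us.card : ℝ) → J ≤ Z.card) ∧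
        (∀ a ∈ Z, δ ^ J * ρ / 2 * (Fintype.card V : ℝ) + (dg (roundL Γ I) a : ℝ) ≤
          (dg Γ a : ℝ)) ∧
        ((Hv.filter (fun w => dg Γ w < dg (roundL Γ I) w + 1)).card : ℝ) ≤
          ε * (Fintype.card V : ℝ) := by
  have hε2 : 0 < ε / 2 := by positivity
  have hδJ : 0 < δ ^ J := pow_pos hδ J
  have hδJ1 : δ ^ J ≤ 1 := pow_le_one₀ hδ.le hδ1
  have hρ' : 0 < δ ^ J * ρ / 2 := by positivity
  have hρρ : δ ^ J * ρ / 2 ≤ ρ := by nlinarith
  have hρ'1 : δ ^ J * ρ / 2 ≤ 1 := hρρ.trans hρ1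
  obtain ⟨η1, hη1, n1, hsel⟩ := exists_select hδ hδ1 hρ hζ hε2 J
  obtain ⟨η2, hη2, hhit⟩ := exists_hit hδ hδ1 hρ' hρ'1 hε2
  refine ⟨min η1 η2, lt_min hη1 hη2, n1, ?_⟩
  intro V _ Γ Us Hv hn hND hUH hdeg
  have hN1 : ND Γ η1 δ := hND.mono_eta (min_le_left _ _)
  have hN2 : ND Γ η2 δ := hND.mono_eta (min_le_right _ _)
  have hn0 : (0 : ℝ) ≤ (Fintype.card V : ℝ) := Nat.cast_nonneg _
  by_cases hU : ζ * (Fintype.card V : ℝ) ≤ (Us.card : ℝ)
  · obtain ⟨z, hz1, hz2, hz3, hz4, hz5, hz6⟩ := hsel V Γ Us Hv hn hN1 hUH hU hdeg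
    set X : Finset V := Hv.filter (fun w => ((Finset.univ.filter (fun y => Γ.Adj w y ∧ y ∉ z ∧
          ∀ a ∈ z, ¬ Γ.Adj a y)).card : ℝ) < δ ^ J * ρ / 2 * (Fintype.card V : ℝ)) with hX
    obtain ⟨I', hI1, hI2, hI3⟩ := hhit V Γ (Hv \ X)
      (fun w => Finset.univ.filter (fun y => Γ.Adj w y ∧ y ∉ z ∧ ∀ a ∈ z, ¬ Γ.Adj a y)) hN2 (by
        intro w hw
        obtain ⟨h1, h2⟩ := Finset.mem_sdiff.1 hw
        by_contra h3
        exact h2 (Finset.mem_filter.2 ⟨h1, not_le.1 h3⟩))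
    refine ⟨z ++ I'.toList, z.toFinset, ?_, ?_, ?_, ?_, ?_⟩
    · rw [List.pairwise_append]
      refine ⟨List.pairwise_of_forall_mem_list (r := fun a b => ¬ Γ.Adj a b)
        (fun a ha b hb => hz4 a ha b hb),
        List.pairwise_of_forall_mem_list (r := fun a b => ¬ Γ.Adj a b)
        (fun a ha b hb => hI1 a (Finset.mem_toList.1 ha) b (Finset.mem_toList.1 hb)), ?_⟩
      intro a ha b hb
      obtain ⟨w, _, hw⟩ := hI2 b (Finset.mem_toList.1 hb)
      exact (Finset.mem_filter.1 hw).2.2.2 a ha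
    · intro a ha
      exact hz3 a (List.mem_toFinset.1 ha)
    · intro _
      rw [List.toFinset_card_of_nodup hz1, hz2]
    · intro a ha
      have ha' : a ∈ z := List.mem_toFinset.1 ha
      have h1 := hz5 a ha'
      have h2 : (Finset.univ.filter (fun y => fst Γ z y = some a)).card ≤
          (Finset.univ.filter (fun y => fst Γ (z ++ I'.toList) y = some a)).card := by
        refine Finset.card_le_card ?_
        intro y hy
        exact Finset.mem_filter.2 ⟨Finset.mem_univ _, gain_append (Finset.mem_filter.1 hy).2⟩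
      have h3 := gain_first Γ (z ++ I'.toList) a
      have h4 : ((Finset.univ.filter (fun y => fst Γ z y = some a)).card : ℝ) +
          (dg (roundL Γ (z ++ I'.toList)) a : ℝ) ≤ (dg Γ a : ℝ) := by
        exact_mod_cast (Nat.add_le_add_right h2 _).trans h3
      linarith
    · have hsub : Hv.filter (fun w => dg Γ w < dg (roundL Γ (z ++ I'.toList)) w + 1) ⊆
          X ∪ (Hv \ X).filter (fun w => ∀ a ∈ I', a ∉ Finset.univ.filter
            (fun y => Γ.Adj w y ∧ y ∉ z ∧ ∀ a ∈ z, ¬ Γ.Adj a y)) := by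
        intro w hw
        obtain ⟨h1, h2⟩ := Finset.mem_filter.1 hw
        by_cases hwX : w ∈ X
        · exact Finset.mem_union_left _ hwX
        · refine Finset.mem_union_right _ (Finset.mem_filter.2 ⟨Finset.mem_sdiff.2 ⟨h1, hwX⟩, ?_⟩)
          intro a ha haS
          have h3 : Γ.Adj w a := (Finset.mem_filter.1 haS).2.1
          have h4 := gain_lose (Γ := Γ) (I := z ++ I'.toList)
            (List.mem_append_right _ (Finset.mem_toList.2 ha)) h3
          omega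
      have h1 : ((Hv.filter (fun w => dg Γ w < dg (roundL Γ (z ++ I'.toList)) w + 1)).card : ℝ) ≤
          (X.card : ℝ) + (((Hv \ X).filter (fun w => ∀ a ∈ I', a ∉ Finset.univ.filter
            (fun y => Γ.Adj w y ∧ y ∉ z ∧ ∀ a ∈ z, ¬ Γ.Adj a y))).card : ℝ) := by
        exact_mod_cast (Finset.card_le_card hsub).trans (Finset.card_union_le _ _)
      have h2 : (X.card : ℝ) ≤ ε / 2 * (Fintype.card V : ℝ) := hz6
      linarith
  · obtain ⟨I', hI1, hI2, hI3⟩ := hhit V Γ Hv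
      (fun w => Finset.univ.filter (fun y => Γ.Adj w y)) hN2 (by
        intro w hw
        exact (mul_le_mul_of_nonneg_right hρρ hn0).trans (hdeg w hw))
    refine ⟨I'.toList, ∅, ?_, Finset.empty_subset _, ?_, ?_, ?_⟩
    · exact List.pairwise_of_forall_mem_list (r := fun a b => ¬ Γ.Adj a b)
        (fun a ha b hb => hI1 a (Finset.mem_toList.1 ha) b (Finset.mem_toList.1 hb))
    · intro h
      exact absurd h hU
    · intro a ha
      exact absurd ha (Finset.notMem_empty _)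
    · have hsub : Hv.filter (fun w => dg Γ w < dg (roundL Γ I'.toList) w + 1) ⊆
          Hv.filter (fun w => ∀ a ∈ I', a ∉ Finset.univ.filter (fun y => Γ.Adj w y)) := by
        intro w hw
        obtain ⟨h1, h2⟩ := Finset.mem_filter.1 hw
        refine Finset.mem_filter.2 ⟨h1, ?_⟩
        intro a ha haS
        have h3 : Γ.Adj w a := (Finset.mem_filter.1 haS).2
        have h4 := gain_lose (Γ := Γ) (I := I'.toList) (Finset.mem_toList.2 ha) h3
        omega
      have h1 : ((Hv.filter (fun w => dg Γ w < dg (roundL Γ I'.toList) w + 1)).card : ℝ) ≤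
          ((Hv.filter (fun w => ∀ a ∈ I', a ∉ Finset.univ.filter
            (fun y => Γ.Adj w y))).card : ℝ) := by
        exact_mod_cast Finset.card_le_card hsub
      have h2 : ε / 2 * (Fintype.card V : ℝ) ≤ ε * (Fintype.card V : ℝ) := by nlinarith
      exact (h1.trans hI3).trans h2

section

variable {V : Type} [Fintype V]

open Classical in
/-- the invariant of `kill_gain` -/
def gain_Inv (Γ : SimpleGraph V) (D J : ℕ) (b ζ ε : ℝ) (t : ℕ) : Prop :=
  ∃ (Γt : SimpleGraph V) (Sch : Finset V) (u : V → ℕ), Rd t Γ Γt ∧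
    ((∑ w, u w : ℕ) : ℝ) ≤ (t : ℝ) * (ε * (Fintype.card V : ℝ)) ∧
    (∀ w, (dg Γt w : ℝ) < (D : ℝ) / 2 ∨ ((dg Γt w : ℝ) + (t : ℝ) ≤ (D : ℝ) + (u w : ℝ) ∧
      (w ∈ Sch → (dg Γt w : ℝ) + (t : ℝ) + b * (Fintype.card V : ℝ) ≤
        (D : ℝ) + 1 + (u w : ℝ)))) ∧
    (J * t ≤ Sch.card ∨ ((Finset.univ.filter (fun w => w ∉ Sch ∧
      (D : ℝ) / 2 ≤ (dg Γt w : ℝ))).card : ℝ) < ζ * (Fintype.card V : ℝ))

open Classical in
theorem gain_Inv_zero (Γ : SimpleGraph V) (D J : ℕ) (b ζ ε : ℝ) (hd : ∀ v, dg Γ v ≤ D) :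
    gain_Inv Γ D J b ζ ε 0 := by
  refine ⟨Γ, ∅, fun _ => 0, rfl, by simp, ?_, Or.inl (by simp)⟩
  intro w
  refine Or.inr ⟨?_, fun h => absurd h (Finset.notMem_empty _)⟩
  have := hd w
  have h1 : (dg Γ w : ℝ) ≤ (D : ℝ) := by exact_mod_cast this
  simpa using h1

open Classical in
theorem gain_Inv_step {Γ : SimpleGraph V} {D J : ℕ} {b ζ ε ρ δ η : ℝ} {t : ℕ}
    (hND : ND Γ η δ) (hρD : ρ * (Fintype.card V : ℝ) ≤ (D : ℝ) / 2)
    (hround : ∀ (Γ : SimpleGraph V)
      (Us Hv : Finset V), ND Γ η δ → Us ⊆ Hv →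
      (∀ w ∈ Hv, ρ * (Fintype.card V : ℝ) ≤ (dg Γ w : ℝ)) →
      ∃ (I : List V) (Z : Finset V), I.Pairwise (fun a b => ¬ Γ.Adj a b) ∧ Z ⊆ Us ∧
        (ζ * (Fintype.card V : ℝ) ≤ (Us.card : ℝ) → J ≤ Z.card) ∧
        (∀ a ∈ Z, b * (Fintype.card V : ℝ) + (dg (roundL Γ I) a : ℝ) ≤
          (dg Γ a : ℝ)) ∧
        ((Hv.filter (fun w => dg Γ w < dg (roundL Γ I) w + 1)).card : ℝ) ≤
          ε * (Fintype.card V : ℝ))
    (h : gain_Inv Γ D J b ζ ε t) : gain_Inv Γ D J b ζ ε (t + 1) := by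
  obtain ⟨Γt, Sch, u, h1, h2, h3, h4⟩ := h
  obtain ⟨I, Z, hI, hZ, hJ, hloss, hexc⟩ := hround Γt
    ((Finset.univ.filter (fun w => (D : ℝ) / 2 ≤ (dg Γt w : ℝ))) \ Sch)
    (Finset.univ.filter (fun w => (D : ℝ) / 2 ≤ (dg Γt w : ℝ))) (hND.mono h1.le)
    Finset.sdiff_subset (by
      intro w hw
      exact hρD.trans (Finset.mem_filter.1 hw).2)
  set Ex : Finset V := (Finset.univ.filter (fun w => (D : ℝ) / 2 ≤ (dg Γt w : ℝ))).filter
    (fun w => dg Γt w < dg (roundL Γt I) w + 1) with hEx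
  have hdis : Disjoint Sch Z := by
    rw [Finset.disjoint_left]
    intro a ha hb
    exact (Finset.mem_sdiff.1 (hZ hb)).2 ha
  refine ⟨roundL Γt I, Sch ∪ Z, fun w => u w + (if w ∈ Ex then 1 else 0), h1.snoc hI, ?_, ?_, ?_⟩
  · have hs : (∑ w, (u w + (if w ∈ Ex then 1 else 0)) : ℕ) = (∑ w, u w) + Ex.card := by
      rw [Finset.sum_add_distrib]
      congr 1
      rw [← Finset.sum_filter, Finset.sum_const, smul_eq_mul, mul_one]
      congr 1
      ext w
      simp
    rw [hs]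
    push_cast
    have : (Ex.card : ℝ) ≤ ε * (Fintype.card V : ℝ) := hexc
    push_cast at h2
    nlinarith
  · intro w
    by_cases hw : (dg (roundL Γt I) w : ℝ) < (D : ℝ) / 2
    · exact Or.inl hw
    · right
      have hle : dg (roundL Γt I) w ≤ dg Γt w := gain_dg_le Γt I w
      have hleR : (dg (roundL Γt I) w : ℝ) ≤ (dg Γt w : ℝ) := by exact_mod_cast hle
      have hHv : w ∈ Finset.univ.filter (fun w => (D : ℝ) / 2 ≤ (dg Γt w : ℝ)) :=
        Finset.mem_filter.2 ⟨Finset.mem_univ _, (not_lt.1 hw).trans hleR⟩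
      obtain ⟨h5, h6⟩ : ((dg Γt w : ℝ) + (t : ℝ) ≤ (D : ℝ) + (u w : ℝ) ∧
          (w ∈ Sch → (dg Γt w : ℝ) + (t : ℝ) + b * (Fintype.card V : ℝ) ≤
          (D : ℝ) + 1 + (u w : ℝ))) := by
        rcases h3 w with h5 | h5
        · exact absurd (lt_of_le_of_lt hleR h5) hw
        · exact h5
      by_cases hwE : w ∈ Ex
      · refine ⟨?_, ?_⟩
        · simp only [hwE, if_true]
          push_cast
          linarith
        · intro hS
          simp only [hwE, if_true]
          push_cast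
          rcases Finset.mem_union.1 hS with hS | hS
          · have := h6 hS
            linarith
          · have := hloss w hS
            linarith
      · have h7 : dg (roundL Γt I) w + 1 ≤ dg Γt w := by
          by_contra h8
          exact hwE (Finset.mem_filter.2 ⟨hHv, by omega⟩)
        have h7R : (dg (roundL Γt I) w : ℝ) + 1 ≤ (dg Γt w : ℝ) := by exact_mod_cast h7
        refine ⟨?_, ?_⟩
        · simp only [hwE, if_false]
          push_cast
          linarith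
        · intro hS
          simp only [hwE, if_false]
          push_cast
          rcases Finset.mem_union.1 hS with hS | hS
          · have := h6 hS
            linarith
          · have := hloss w hS
            linarith
  · have hsub1 : Finset.univ.filter (fun w => w ∉ Sch ∪ Z ∧
        (D : ℝ) / 2 ≤ (dg (roundL Γt I) w : ℝ)) ⊆ Finset.univ.filter (fun w => w ∉ Sch ∧
        (D : ℝ) / 2 ≤ (dg Γt w : ℝ)) := by
      intro w hw
      obtain ⟨_, h5, h6⟩ := Finset.mem_filter.1 hw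
      refine Finset.mem_filter.2 ⟨Finset.mem_univ _, fun h7 => h5 (Finset.mem_union_left _ h7), ?_⟩
      have hle : dg (roundL Γt I) w ≤ dg Γt w := gain_dg_le Γt I w
      have hleR : (dg (roundL Γt I) w : ℝ) ≤ (dg Γt w : ℝ) := by exact_mod_cast hle
      exact h6.trans hleR
    have hcard1 : ((Finset.univ.filter (fun w => w ∉ Sch ∪ Z ∧
        (D : ℝ) / 2 ≤ (dg (roundL Γt I) w : ℝ))).card : ℝ) ≤
        ((Finset.univ.filter (fun w => w ∉ Sch ∧ (D : ℝ) / 2 ≤ (dg Γt w : ℝ))).card : ℝ) := by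
      exact_mod_cast Finset.card_le_card hsub1
    rcases h4 with h4 | h4
    · by_cases hU : ζ * (Fintype.card V : ℝ) ≤
        (((Finset.univ.filter (fun w => (D : ℝ) / 2 ≤ (dg Γt w : ℝ))) \ Sch).card : ℝ)
      · left
        rw [Finset.card_union_of_disjoint hdis]
        have := hJ hU
        nlinarith
      · right
        refine lt_of_le_of_lt hcard1 ?_
        have heq : Finset.univ.filter (fun w => w ∉ Sch ∧ (D : ℝ) / 2 ≤ (dg Γt w : ℝ)) =
            (Finset.univ.filter (fun w => (D : ℝ) / 2 ≤ (dg Γt w : ℝ))) \ Sch := by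
          ext w
          simp only [Finset.mem_filter, Finset.mem_univ, true_and, Finset.mem_sdiff]
          tauto
        rw [heq]
        exact not_le.1 hU
    · right
      exact lt_of_le_of_lt hcard1 h4

end

open Classical in
theorem kill_gain {δ ρ₀ : ℝ} (hδ : 0 < δ) (hδ1 : δ ≤ 1) (hρ₀ : 0 < ρ₀) (hρ1 : ρ₀ ≤ 1) :
    ∃ c : ℝ, 0 < c ∧ ∃ η : ℝ, 0 < η ∧ ∃ n₀ : ℕ, ∀ (V : Type) [Fintype V]
      (Γ : SimpleGraph V) (D : ℕ), n₀ ≤ Fintype.card V → ND Γ η δ →
      ρ₀ * (Fintype.card V : ℝ) ≤ (D : ℝ) → (∀ v, dg Γ v ≤ D) →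
      ∃ r : ℕ, (r : ℝ) + c * (Fintype.card V : ℝ) ≤ (D : ℝ) ∧ Kill r Γ := by
  obtain ⟨J, hJ⟩ := exists_nat_ge (8 / ρ₀)
  have hJρ : 8 ≤ (J : ℝ) * ρ₀ := by
    rw [div_le_iff₀ hρ₀] at hJ
    exact hJ
  have hJpos : (0 : ℝ) < (J : ℝ) := by
    rcases Nat.eq_zero_or_pos J with h | h
    · rw [h] at hJρ
      norm_num at hJρ
    · exact_mod_cast h
  set b : ℝ := δ ^ J * (ρ₀ / 2) / 2 with hb
  have hδJ : 0 < δ ^ J := pow_pos hδ J
  have hδJ1 : δ ^ J ≤ 1 := pow_le_one₀ hδ.le hδ1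
  have hbpos : 0 < b := by positivity
  have hbρ : b ≤ ρ₀ / 4 := by
    rw [hb]
    nlinarith
  obtain ⟨η, hη, n1, hround⟩ := gain_round (δ := δ) (ρ := ρ₀ / 2) (ζ := b / 8)
    (ε := b / 8 * b / 8) hδ hδ1 (by positivity) (by linarith) (by positivity) (by positivity) J
  obtain ⟨n2, hn2⟩ := exists_nat_ge (5 / b)
  refine ⟨b / 2, by positivity, η, hη, max n1 (max n2 (J + 1)), ?_⟩
  intro V _ Γ D₀ hn hND hD₀ hdeg₀
  -- replace `D` by `min D n`
  obtain ⟨D, hDD, hDn, hρD, hdeg⟩ : ∃ D : ℕ, D ≤ D₀ ∧ D ≤ Fintype.card V ∧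
      ρ₀ * (Fintype.card V : ℝ) ≤ (D : ℝ) ∧ ∀ v, dg Γ v ≤ D := by
    refine ⟨min D₀ (Fintype.card V), min_le_left _ _, min_le_right _ _, ?_, ?_⟩
    · rw [Nat.cast_min]
      refine le_min hD₀ ?_
      have : (0 : ℝ) ≤ (Fintype.card V : ℝ) := Nat.cast_nonneg _
      nlinarith
    · intro v
      refine le_min (hdeg₀ v) ?_
      exact (Finset.card_le_univ _)
  have hDDR : (D : ℝ) ≤ (D₀ : ℝ) := by exact_mod_cast hDD
  have hDnR : (D : ℝ) ≤ (Fintype.card V : ℝ) := by exact_mod_cast hDn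
  have hn1 : n1 ≤ Fintype.card V := le_trans (le_max_left _ _) hn
  have hn2' : n2 ≤ Fintype.card V := le_trans (le_trans (le_max_left _ _) (le_max_right _ _)) hn
  have hnJ : J + 1 ≤ Fintype.card V := le_trans (le_trans (le_max_right _ _) (le_max_right _ _)) hn
  have hnJR : (J : ℝ) + 1 ≤ (Fintype.card V : ℝ) := by exact_mod_cast hnJ
  have hnpos : (0 : ℝ) < (Fintype.card V : ℝ) := by linarith
  have hbn : 5 ≤ b * (Fintype.card V : ℝ) := by
    have h1 : (n2 : ℝ) ≤ (Fintype.card V : ℝ) := by exact_mod_cast hn2'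
    have h2 : 5 / b ≤ (Fintype.card V : ℝ) := hn2.trans h1
    rw [div_le_iff₀ hbpos] at h2
    linarith
  have hInv : ∀ t : ℕ, gain_Inv Γ D J b (b / 8) (b / 8 * b / 8) t := by
    intro t
    induction t with
    | zero => exact gain_Inv_zero Γ D J _ _ _ hdeg
    | succ t ih =>
      refine gain_Inv_step (ρ := ρ₀ / 2) (δ := δ) (η := η) hND (by linarith) ?_ ih
      intro Γ' Us Hv h1 h2 h3
      exact hround V Γ' Us Hv hn1 h1 h2 h3
  set T : ℕ := D / 4 with hT
  have hT1 : (T : ℝ) ≤ (D : ℝ) / 4 := by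
    have h1 : T * 4 ≤ D := Nat.div_mul_le_self D 4
    have h2 : (T : ℝ) * 4 ≤ (D : ℝ) := by exact_mod_cast h1
    linarith
  have hT2 : (D : ℝ) / 4 ≤ (T : ℝ) + 1 := by
    have h1 : D < (T + 1) * 4 := by omega
    have h2 : (D : ℝ) < ((T : ℝ) + 1) * 4 := by exact_mod_cast h1
    linarith
  obtain ⟨Γt, Sch, u, h1, h2, h3, h4⟩ := hInv T
  have hJT : (Fintype.card V : ℝ) < (J : ℝ) * (T : ℝ) := by
    nlinarith
  have h5 : ((Finset.univ.filter (fun w => w ∉ Sch ∧
      (D : ℝ) / 2 ≤ (dg Γt w : ℝ))).card : ℝ) < b / 8 * (Fintype.card V : ℝ) := by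
    rcases h4 with h4 | h4
    · exfalso
      have h6 : Sch.card ≤ Fintype.card V := Finset.card_le_univ _
      have h7 : ((J * T : ℕ) : ℝ) ≤ (Fintype.card V : ℝ) := by exact_mod_cast h4.trans h6
      push_cast at h7
      linarith
    · exact h4
  set E1 : Finset V := Finset.univ.filter (fun w => w ∉ Sch ∧ (D : ℝ) / 2 ≤ (dg Γt w : ℝ)) with hE1
  set E2 : Finset V := Finset.univ.filter (fun w => b / 8 * (Fintype.card V : ℝ) < (u w : ℝ))
    with hE2
  have hE2card : (E2.card : ℝ) ≤ b / 32 * (Fintype.card V : ℝ) := by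
    have h6 : (E2.card : ℝ) * (b / 8 * (Fintype.card V : ℝ)) ≤ ((∑ w, u w : ℕ) : ℝ) := by
      have h7 : (E2.card : ℝ) * (b / 8 * (Fintype.card V : ℝ)) ≤ ∑ w ∈ E2, (u w : ℝ) := by
        rw [← nsmul_eq_mul]
        refine Finset.card_nsmul_le_sum _ _ _ ?_
        intro w hw
        exact (Finset.mem_filter.1 hw).2.le
      have h8 : ∑ w ∈ E2, (u w : ℝ) ≤ ∑ w, (u w : ℝ) :=
        Finset.sum_le_sum_of_subset_of_nonneg (Finset.subset_univ _) (fun _ _ _ => Nat.cast_nonneg _)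
      push_cast
      linarith
    have h7 : (E2.card : ℝ) * (b / 8 * (Fintype.card V : ℝ)) ≤
        (Fintype.card V : ℝ) / 4 * (b / 8 * b / 8 * (Fintype.card V : ℝ)) := by
      refine (h6.trans h2).trans ?_
      refine mul_le_mul_of_nonneg_right (by linarith) (by positivity)
    have h8 : 0 < b / 8 * (Fintype.card V : ℝ) := by positivity
    have h9 : (E2.card : ℝ) * (b / 8 * (Fintype.card V : ℝ)) ≤
        (b / 32 * (Fintype.card V : ℝ)) * (b / 8 * (Fintype.card V : ℝ)) := by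
      refine h7.trans (le_of_eq ?_)
      ring
    exact le_of_mul_le_mul_right h9 h8
  set m : ℕ := ⌊max ((D : ℝ) / 2) ((D : ℝ) - (T : ℝ) + 1 + b / 8 * (Fintype.card V : ℝ) -
    b * (Fintype.card V : ℝ))⌋₊ with hm
  have hm0 : (0 : ℝ) ≤ max ((D : ℝ) / 2) ((D : ℝ) - (T : ℝ) + 1 + b / 8 * (Fintype.card V : ℝ) -
      b * (Fintype.card V : ℝ)) := le_trans (by positivity) (le_max_left _ _)
  have hmle : (m : ℝ) ≤ max ((D : ℝ) / 2) ((D : ℝ) - (T : ℝ) + 1 +
      b / 8 * (Fintype.card V : ℝ) - b * (Fintype.card V : ℝ)) := Nat.floor_le hm0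
  have hkill : Kill m (ind Γt (E1 ∪ E2)ᶜ) := by
    refine kill_of_degree m _ ∅ (fun a ha => absurd ha (Finset.notMem_empty _)) ?_
    intro v _
    refine Nat.le_floor ?_
    by_cases hv : v ∈ E1 ∪ E2
    · have h6 : dg (ind Γt (E1 ∪ E2)ᶜ) v = 0 := by
        unfold dg
        rw [Finset.card_eq_zero, Finset.filter_eq_empty_iff]
        intro w _ hw
        exact (Finset.mem_compl.1 hw.2.1) hv
      rw [h6]
      simpa using hm0
    · have h6 : dg (ind Γt (E1 ∪ E2)ᶜ) v ≤ dg Γt v := by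
        refine Finset.card_le_card ?_
        intro w hw
        exact Finset.mem_filter.2 ⟨Finset.mem_univ _, (Finset.mem_filter.1 hw).2.1⟩
      have h6R : (dg (ind Γt (E1 ∪ E2)ᶜ) v : ℝ) ≤ (dg Γt v : ℝ) := by exact_mod_cast h6
      refine h6R.trans ?_
      by_cases h7 : (dg Γt v : ℝ) < (D : ℝ) / 2
      · exact h7.le.trans (le_max_left _ _)
      · have h8 : v ∈ Sch := by
          by_contra h9
          exact hv (Finset.mem_union_left _ (Finset.mem_filter.2
            ⟨Finset.mem_univ _, h9, not_lt.1 h7⟩))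
        have h9 : (u v : ℝ) ≤ b / 8 * (Fintype.card V : ℝ) := by
          by_contra h10
          exact hv (Finset.mem_union_right _ (Finset.mem_filter.2
            ⟨Finset.mem_univ _, not_le.1 h10⟩))
        rcases h3 v with h10 | h10
        · exact absurd h10 h7
        · have h11 := h10.2 h8
          refine le_trans ?_ (le_max_right _ _)
          linarith
  have hkill2 : Kill (T + (m + (E1 ∪ E2).card)) Γ :=
    h1.kill (kill_of_ind (E1 ∪ E2) m Γt hkill)
  refine ⟨T + (m + (E1 ∪ E2).card), ?_, hkill2⟩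
  have hEcard : ((E1 ∪ E2).card : ℝ) ≤ b / 8 * (Fintype.card V : ℝ) +
      b / 32 * (Fintype.card V : ℝ) := by
    have h6 : ((E1 ∪ E2).card : ℝ) ≤ (E1.card : ℝ) + (E2.card : ℝ) := by
      exact_mod_cast Finset.card_union_le _ _
    linarith
  push_cast
  have hbnρ : b * (Fintype.card V : ℝ) ≤ ρ₀ / 4 * (Fintype.card V : ℝ) :=
    mul_le_mul_of_nonneg_right hbρ hnpos.le
  rcases le_total ((D : ℝ) / 2) ((D : ℝ) - (T : ℝ) + 1 + b / 8 * (Fintype.card V : ℝ) -
    b * (Fintype.card V : ℝ)) with h6 | h6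
  · rw [max_eq_right h6] at hmle
    linarith
  · rw [max_eq_left h6] at hmle
    linarith

end Pool.Agent.Lib.MP_23961f_co.DP
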