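import Pool.Agent.Lib.MP_23961f_co.DP.Energy

/-!
In a graph without dense pairs an independent set meets almost all members of a family of large
sets.
-/

set_option autoImplicit false

namespace Pool.Agent.Lib.MP_23961f_co.DP

open Pool.Agent.Lib.MP_23961f_co.K

open Classical in
/-- Clusters chosen one after the other for the members of the family which are not covered. -/
theorem hit_clusters {V : Type} [Fintype V] {ρ β θ α : ℝ} (hρ : 0 < ρ) (hρ1 : ρ ≤ 1)
    (hθ : 0 < θ)
    (hcl : ∀ (W : Finset V) (S : V → Finset V),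
      (∀ w ∈ W, ρ * (Fintype.card V : ℝ) ≤ ((S w).card : ℝ)) →
      ∃ B : Finset V, B.Nonempty ∧ α * (Fintype.card V : ℝ) ≤ (B.card : ℝ) ∧
        ρ ^ 2 / 2 * (W.card : ℝ) ≤ ((W.filter (fun w => ρ / 2 ≤ dn (S w) B)).card : ℝ) ∧
        ∀ A ⊆ B, β * (B.card : ℝ) ≤ (A.card : ℝ) →
          ((W.filter (fun w => ρ / 2 ≤ dn (S w) B ∧ dn (S w) A < ρ / 4)).card : ℝ) ≤
            θ * (W.card : ℝ))
    (W : Finset V) (S : V → Finset V)
    (hS : ∀ w ∈ W, ρ * (Fintype.card V : ℝ) ≤ ((S w).card : ℝ)) (j : ℕ) :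
    ∃ (B W' : ℕ → Finset V),
      (∀ i, i < j → (B i).Nonempty ∧ α * (Fintype.card V : ℝ) ≤ ((B i).card : ℝ) ∧ W' i ⊆ W ∧
        ∀ A ⊆ B i, β * ((B i).card : ℝ) ≤ (A.card : ℝ) →
          (((W' i).filter (fun w => dn (S w) A < ρ / 4)).card : ℝ) ≤ θ * (W.card : ℝ)) ∧
      ((W.filter (fun w => ∀ i, i < j → w ∉ W' i)).card : ℝ) ≤
        (1 - ρ ^ 2 / 2) ^ j * (W.card : ℝ) := by
  induction j with
  | zero =>
    refine ⟨fun _ => ∅, fun _ => ∅, fun i hi => absurd hi (Nat.not_lt_zero _), ?_⟩
    rw [pow_zero, one_mul]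
    exact_mod_cast Finset.card_filter_le _ _
  | succ j ih =>
    obtain ⟨B, W', h1, h2⟩ := ih
    let U : Finset V := W.filter (fun w => ∀ i, i < j → w ∉ W' i)
    have hUW : U ⊆ W := Finset.filter_subset _ _
    obtain ⟨C, hC0, hC1, hC2, hC3⟩ := hcl U S (fun w hw => hS w (hUW hw))
    let X : Finset V := U.filter (fun w => ρ / 2 ≤ dn (S w) C)
    refine ⟨fun i => if i < j then B i else C, fun i => if i < j then W' i else X, ?_, ?_⟩
    · intro i hi
      by_cases hij : i < j
      · simp only [hij, if_true]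
        exact h1 i hij
      · simp only [hij, if_false]
        refine ⟨hC0, hC1, (Finset.filter_subset _ _).trans hUW, ?_⟩
        intro A hA hA1
        have h3 := hC3 A hA hA1
        have h4 : X.filter (fun w => dn (S w) A < ρ / 4) =
            U.filter (fun w => ρ / 2 ≤ dn (S w) C ∧ dn (S w) A < ρ / 4) := by
          rw [Finset.filter_filter]
        rw [h4]
        refine h3.trans (mul_le_mul_of_nonneg_left ?_ hθ.le)
        exact_mod_cast Finset.card_le_card hUW
    · have h3 : W.filter (fun w => ∀ i, i < j + 1 → w ∉ (if i < j then W' i else X)) ⊆ U \ X := by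
        intro w hw
        obtain ⟨hwW, hw1⟩ := Finset.mem_filter.1 hw
        refine Finset.mem_sdiff.2 ⟨Finset.mem_filter.2 ⟨hwW, ?_⟩, ?_⟩
        · intro i hi
          have h4 := hw1 i (by omega)
          simpa only [hi, if_true] using h4
        · have h4 := hw1 j (by omega)
          simpa only [lt_irrefl, if_false] using h4
      have h4 : (U \ X).card + X.card = U.card :=
        Finset.card_sdiff_add_card_eq_card (Finset.filter_subset _ _)
      have h5 : ((U \ X).card : ℝ) + (X.card : ℝ) = (U.card : ℝ) := by exact_mod_cast h4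
      have h6 : ((W.filter (fun w => ∀ i, i < j + 1 → w ∉ (if i < j then W' i else X))).card : ℝ) ≤
          ((U \ X).card : ℝ) := by exact_mod_cast Finset.card_le_card h3
      have h7 : ρ ^ 2 / 2 * (U.card : ℝ) ≤ (X.card : ℝ) := hC2
      have h8 : (0 : ℝ) ≤ 1 - ρ ^ 2 / 2 := by nlinarith
      calc ((W.filter (fun w => ∀ i, i < j + 1 → w ∉ (if i < j then W' i else X))).card : ℝ)
          ≤ ((U \ X).card : ℝ) := h6
        _ ≤ (1 - ρ ^ 2 / 2) * (U.card : ℝ) := by linarith
        _ ≤ (1 - ρ ^ 2 / 2) * ((1 - ρ ^ 2 / 2) ^ j * (W.card : ℝ)) :=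
          mul_le_mul_of_nonneg_left h2 h8
        _ = (1 - ρ ^ 2 / 2) ^ (j + 1) * (W.card : ℝ) := by ring

open Classical in
/-- Double counting: a vertex of `A`, not in `F`, which lies in many of the sets `S w`. -/
theorem hit_count {V : Type} [Fintype V] {ρ : ℝ} (hρ : 0 < ρ) (A F R : Finset V)
    (S : V → Finset V) (hA : A.Nonempty) (hR : R.Nonempty)
    (hF : (F.card : ℝ) ≤ ρ / 8 * (A.card : ℝ))
    (hbad : ((R.filter (fun w => dn (S w) A < ρ / 4)).card : ℝ) ≤ (R.card : ℝ) / 4) :
    ∃ z ∈ A, z ∉ F ∧ ρ / 16 * (R.card : ℝ) ≤ ((R.filter (fun w => z ∈ S w)).card : ℝ) := by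
  by_contra hno
  push Not at hno
  have hA0 : (0 : ℝ) < (A.card : ℝ) := by exact_mod_cast Finset.card_pos.2 hA
  have hR0 : (0 : ℝ) < (R.card : ℝ) := by exact_mod_cast Finset.card_pos.2 hR
  let G : Finset V := R.filter (fun w => ¬ dn (S w) A < ρ / 4)
  have hG : 3 / 4 * (R.card : ℝ) ≤ (G.card : ℝ) := by
    have h1 : (R.filter (fun w => dn (S w) A < ρ / 4)).card + G.card = R.card :=
      Finset.card_filter_add_card_filter_not _
    have h2 : ((R.filter (fun w => dn (S w) A < ρ / 4)).card : ℝ) + (G.card : ℝ) =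
        (R.card : ℝ) := by exact_mod_cast h1
    linarith
  -- double sum
  have hsum : ∑ w ∈ G, ((S w ∩ (A \ F)).card : ℝ) =
      ∑ z ∈ A \ F, ((G.filter (fun w => z ∈ S w)).card : ℝ) := by
    have h1 : ∀ w ∈ G, ((S w ∩ (A \ F)).card : ℝ) =
        ∑ z ∈ A \ F, (if z ∈ S w then (1 : ℝ) else 0) := by
      intro w _
      rw [← Finset.sum_filter, Finset.sum_const, nsmul_eq_mul, mul_one]
      congr 2
      ext z
      simp only [Finset.mem_inter, Finset.mem_filter]
      tauto
    have h2 : ∀ z ∈ A \ F, ((G.filter (fun w => z ∈ S w)).card : ℝ) =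
        ∑ w ∈ G, (if z ∈ S w then (1 : ℝ) else 0) := by
      intro z _
      rw [← Finset.sum_filter, Finset.sum_const, nsmul_eq_mul, mul_one]
    rw [Finset.sum_congr rfl h1, Finset.sum_congr rfl h2, Finset.sum_comm]
  have hlow : (G.card : ℝ) * (ρ / 8 * (A.card : ℝ)) ≤ ∑ w ∈ G, ((S w ∩ (A \ F)).card : ℝ) := by
    rw [← nsmul_eq_mul, ← Finset.sum_const]
    refine Finset.sum_le_sum ?_
    intro w hw
    have h1 : ρ / 4 ≤ dn (S w) A := not_lt.1 (Finset.mem_filter.1 hw).2
    have h2 : ρ / 4 * (A.card : ℝ) ≤ ((S w ∩ A).card : ℝ) := by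
      unfold dn at h1
      rwa [le_div_iff₀ hA0] at h1
    have h3 : S w ∩ A ⊆ (S w ∩ (A \ F)) ∪ F := by
      intro x hx
      obtain ⟨h4, h5⟩ := Finset.mem_inter.1 hx
      by_cases h6 : x ∈ F
      · exact Finset.mem_union_right _ h6
      · exact Finset.mem_union_left _ (Finset.mem_inter.2 ⟨h4, Finset.mem_sdiff.2 ⟨h5, h6⟩⟩)
    have h4 : (S w ∩ A).card ≤ (S w ∩ (A \ F)).card + F.card :=
      (Finset.card_le_card h3).trans (Finset.card_union_le _ _)
    have h5 : ((S w ∩ A).card : ℝ) ≤ ((S w ∩ (A \ F)).card : ℝ) + (F.card : ℝ) := by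
      exact_mod_cast h4
    linarith
  have hup : ∑ z ∈ A \ F, ((G.filter (fun w => z ∈ S w)).card : ℝ) ≤
      (A.card : ℝ) * (ρ / 16 * (R.card : ℝ)) := by
    calc ∑ z ∈ A \ F, ((G.filter (fun w => z ∈ S w)).card : ℝ)
        ≤ ∑ _z ∈ A \ F, (ρ / 16 * (R.card : ℝ)) := by
          refine Finset.sum_le_sum ?_
          intro z hz
          obtain ⟨h1, h2⟩ := Finset.mem_sdiff.1 hz
          have h3 := hno z h1 h2
          have h4 : (G.filter (fun w => z ∈ S w)).card ≤ (R.filter (fun w => z ∈ S w)).card :=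
            Finset.card_le_card (Finset.filter_subset_filter _ (Finset.filter_subset _ _))
          have h5 : ((G.filter (fun w => z ∈ S w)).card : ℝ) ≤
              ((R.filter (fun w => z ∈ S w)).card : ℝ) := by exact_mod_cast h4
          linarith
      _ = ((A \ F).card : ℝ) * (ρ / 16 * (R.card : ℝ)) := by
          rw [Finset.sum_const, nsmul_eq_mul]
      _ ≤ (A.card : ℝ) * (ρ / 16 * (R.card : ℝ)) := by
          refine mul_le_mul_of_nonneg_right ?_ (by positivity)
          exact_mod_cast Finset.card_le_card Finset.sdiff_subset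
  rw [hsum] at hlow
  have h1 := hlow.trans hup
  have h2 : 3 / 4 * (R.card : ℝ) * (ρ / 8 * (A.card : ℝ)) ≤
      (G.card : ℝ) * (ρ / 8 * (A.card : ℝ)) :=
    mul_le_mul_of_nonneg_right hG (by positivity)
  have h3 := h2.trans h1
  have h4 : 0 < ρ * (R.card : ℝ) * (A.card : ℝ) := by positivity
  nlinarith

open Classical in
/-- An independent set in the union of the sets `S w`, `w ∈ W`, which meets all but `ε n` of
them. -/
theorem exists_hit {δ ρ ε : ℝ} (hδ : 0 < δ) (hδ1 : δ ≤ 1) (hρ : 0 < ρ) (hρ1 : ρ ≤ 1)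
    (hε : 0 < ε) :
    ∃ η : ℝ, 0 < η ∧ ∀ (V : Type) [Fintype V] (Γ : SimpleGraph V) (W : Finset V)
      (S : V → Finset V), ND Γ η δ →
      (∀ w ∈ W, ρ * (Fintype.card V : ℝ) ≤ ((S w).card : ℝ)) →
      ∃ I : Finset V, (∀ a ∈ I, ∀ b ∈ I, ¬ Γ.Adj a b) ∧ (∀ a ∈ I, ∃ w ∈ W, a ∈ S w) ∧
        ((W.filter (fun w => ∀ a ∈ I, a ∉ S w)).card : ℝ) ≤ ε * (Fintype.card V : ℝ) := by
  -- constants
  have hq0 : (0 : ℝ) ≤ 1 - ρ ^ 2 / 2 := by nlinarith
  have hq1 : 1 - ρ ^ 2 / 2 < 1 := by nlinarith [pow_pos hρ 2]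
  obtain ⟨s₀, hs₀⟩ := exists_pow_lt_of_lt_one (half_pos hε) hq1
  let s : ℕ := s₀ + 1
  have hs1 : 1 ≤ s := Nat.succ_le_succ (Nat.zero_le _)
  have hsR : (1 : ℝ) ≤ (s : ℝ) := by exact_mod_cast hs1
  have hspos : (0 : ℝ) < (s : ℝ) := by linarith
  have hs : (1 - ρ ^ 2 / 2) ^ s ≤ ε / 2 := by
    have h1 : (1 - ρ ^ 2 / 2) ^ s ≤ (1 - ρ ^ 2 / 2) ^ s₀ :=
      pow_le_pow_of_le_one hq0 hq1.le (Nat.le_succ _)
    linarith
  have hp0 : (0 : ℝ) ≤ 1 - ρ / (16 * s) := by
    have h1 : ρ / (16 * s) ≤ 1 := by
      rw [div_le_one (by positivity)]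
      nlinarith
    linarith
  have hp1 : 1 - ρ / (16 * s) < 1 := by
    have h1 : 0 < ρ / (16 * s) := by positivity
    linarith
  obtain ⟨M, hM⟩ := exists_pow_lt_of_lt_one (half_pos hε) hp1
  have hβ : 0 < δ ^ M := pow_pos hδ M
  have hβ1 : δ ^ M ≤ 1 := pow_le_one₀ hδ.le hδ1
  have hθ : 0 < ε / (8 * s) := by positivity
  obtain ⟨α, hα, hcl⟩ := exists_cluster hρ hρ1 hβ hβ1 hθ
  let η : ℝ := min (δ ^ M * α) (ρ * α * δ ^ M / (8 * s))
  have hη : 0 < η := lt_min (by positivity) (by positivity)
  refine ⟨η, hη, ?_⟩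
  intro V _ Γ W S hND hS
  have hη1 : η ≤ δ ^ M * α := min_le_left _ _
  have hη2 : η ≤ ρ * α * δ ^ M / (8 * s) := min_le_right _ _
  by_cases hV : Nonempty V
  swap
  · refine ⟨∅, fun a ha => absurd ha (Finset.notMem_empty _),
      fun a ha => absurd ha (Finset.notMem_empty _), ?_⟩
    have hW : W = ∅ := by
      rw [Finset.eq_empty_iff_forall_notMem]
      intro w _
      exact hV ⟨w⟩
    rw [hW]
    simp only [Finset.filter_empty, Finset.card_empty, Nat.cast_zero]
    positivity
  have := hV
  set n : ℝ := (Fintype.card V : ℝ) with hn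
  have hn0 : (0 : ℝ) < n := by
    rw [hn]
    exact_mod_cast Fintype.card_pos
  obtain ⟨B, W', hB, hcov⟩ := hit_clusters hρ hρ1 hθ (fun W S h => hcl V W S h) W S hS s
  let A : Finset V → ℕ → Finset V := fun I i => (B i).filter (fun x => ∀ z ∈ I, ¬ Γ.Adj z x)
  let Wc : Finset V := W.filter (fun w => ∃ i, i < s ∧ w ∈ W' i)
  let R : Finset V → Finset V := fun I => Wc.filter (fun w => ∀ a ∈ I, a ∉ S w)
  have key : ∀ t, t ≤ M → ∃ I : Finset V, (∀ a ∈ I, ∀ b ∈ I, ¬ Γ.Adj a b) ∧
      (∀ a ∈ I, ∃ w ∈ W, a ∈ S w) ∧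
      (∀ i, i < s → δ ^ t * ((B i).card : ℝ) ≤ ((A I i).card : ℝ)) ∧
      (((R I).card : ℝ) ≤ ε / 2 * (W.card : ℝ) ∨
        ((R I).card : ℝ) ≤ (1 - ρ / (16 * s)) ^ t * (W.card : ℝ)) := by
    intro t
    induction t with
    | zero =>
      intro _
      refine ⟨∅, fun a ha => absurd ha (Finset.notMem_empty _),
        fun a ha => absurd ha (Finset.notMem_empty _), ?_, Or.inr ?_⟩
      · intro i _
        have h1 : A ∅ i = B i := by
          simp only [A]
          rw [Finset.filter_true_of_mem]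
          intro x _ z hz
          exact absurd hz (Finset.notMem_empty _)
        rw [h1, pow_zero, one_mul]
      · rw [pow_zero, one_mul]
        have h1 : (R ∅).card ≤ W.card := (Finset.card_filter_le _ _).trans (Finset.card_filter_le _ _)
        exact_mod_cast h1
    | succ t ih =>
      intro ht
      obtain ⟨I, hI1, hI2, hI3, hI4⟩ := ih (by omega)
      by_cases hR : ((R I).card : ℝ) ≤ ε / 2 * (W.card : ℝ)
      · refine ⟨I, hI1, hI2, ?_, Or.inl hR⟩
        intro i hi
        refine le_trans ?_ (hI3 i hi)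
        refine mul_le_mul_of_nonneg_right ?_ (Nat.cast_nonneg _)
        exact pow_le_pow_of_le_one hδ.le hδ1 (Nat.le_succ _)
      · have hR' : ((R I).card : ℝ) ≤ (1 - ρ / (16 * s)) ^ t * (W.card : ℝ) := by
          rcases hI4 with h | h
          · exact absurd h hR
          · exact h
        have hR0 : (0 : ℝ) < ((R I).card : ℝ) := by
          have h1 : (0 : ℝ) ≤ ε / 2 * (W.card : ℝ) := by positivity
          linarith [not_le.1 hR]
        -- a class with many uncovered members
        obtain ⟨j, hj, hjR⟩ : ∃ j, j < s ∧ ((R I).card : ℝ) / s ≤ (((R I) ∩ W' j).card : ℝ) := by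
          by_contra hno
          push Not at hno
          have h1 : R I ⊆ (Finset.range s).biUnion (fun i => (R I) ∩ W' i) := by
            intro w hw
            obtain ⟨i, hi, hwi⟩ := (Finset.mem_filter.1 (Finset.mem_filter.1 hw).1).2
            exact Finset.mem_biUnion.2 ⟨i, Finset.mem_range.2 hi, Finset.mem_inter.2 ⟨hw, hwi⟩⟩
          have h2 : (R I).card ≤ ∑ i ∈ Finset.range s, ((R I) ∩ W' i).card :=
            (Finset.card_le_card h1).trans Finset.card_biUnion_le
          have h3 : ((R I).card : ℝ) ≤ ∑ i ∈ Finset.range s, (((R I) ∩ W' i).card : ℝ) := by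
            exact_mod_cast h2
          have h4 : ∑ i ∈ Finset.range s, (((R I) ∩ W' i).card : ℝ) <
              ∑ _i ∈ Finset.range s, ((R I).card : ℝ) / s := by
            refine Finset.sum_lt_sum_of_nonempty ⟨0, Finset.mem_range.2 (by omega)⟩ ?_
            intro i hi
            exact hno i (Finset.mem_range.1 hi)
          rw [Finset.sum_const, Finset.card_range, nsmul_eq_mul, mul_div_cancel₀ _ hspos.ne'] at h4
          linarith
        let Rj : Finset V := (R I) ∩ W' j
        have hRj : ((R I).card : ℝ) / s ≤ (Rj.card : ℝ) := hjR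
        have hRj0 : (0 : ℝ) < (Rj.card : ℝ) := lt_of_lt_of_le (div_pos hR0 hspos) hRj
        have hRjW : ε / (2 * s) * (W.card : ℝ) ≤ (Rj.card : ℝ) := by
          have h1 : ε / (2 * s) * (W.card : ℝ) = ε / 2 * (W.card : ℝ) / s := by
            field_simp
          rw [h1]
          refine le_trans ?_ hRj
          exact div_le_div_of_nonneg_right (not_le.1 hR).le hspos.le
        -- sizes
        have hAi : ∀ i, i < s → η * n ≤ ((A I i).card : ℝ) ∧
            δ ^ M * α * n ≤ ((A I i).card : ℝ) := by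
          intro i hi
          have h1 : δ ^ M * α * n ≤ ((A I i).card : ℝ) := by
            refine le_trans ?_ (hI3 i hi)
            have h2 : δ ^ M ≤ δ ^ t := pow_le_pow_of_le_one hδ.le hδ1 (by omega)
            have h3 := (hB i hi).2.1
            calc δ ^ M * α * n = δ ^ M * (α * n) := by ring
              _ ≤ δ ^ t * ((B i).card : ℝ) :=
                mul_le_mul h2 h3 (by positivity) (pow_nonneg hδ.le t)
          refine ⟨le_trans ?_ h1, h1⟩
          exact mul_le_mul_of_nonneg_right hη1 hn0.le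
        let F : Finset V := (Finset.range s).biUnion (fun i => Finset.univ.filter (fun z : V =>
          (((A I i).filter (fun w => ¬ Γ.Adj z w)).card : ℝ) < δ * ((A I i).card : ℝ)))
        have hF : (F.card : ℝ) ≤ ρ / 8 * ((A I j).card : ℝ) := by
          have h1 : F.card ≤ ∑ i ∈ Finset.range s, (Finset.univ.filter (fun z : V =>
            (((A I i).filter (fun w => ¬ Γ.Adj z w)).card : ℝ) < δ * ((A I i).card : ℝ))).card :=
            Finset.card_biUnion_le
          have h2 : (F.card : ℝ) ≤ ∑ i ∈ Finset.range s, ((Finset.univ.filter (fun z : V =>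
            (((A I i).filter (fun w => ¬ Γ.Adj z w)).card : ℝ) <
              δ * ((A I i).card : ℝ))).card : ℝ) := by
            exact_mod_cast h1
          have h3 : ∑ i ∈ Finset.range s, ((Finset.univ.filter (fun z : V =>
            (((A I i).filter (fun w => ¬ Γ.Adj z w)).card : ℝ) <
              δ * ((A I i).card : ℝ))).card : ℝ) ≤ ∑ _i ∈ Finset.range s, η * n := by
            refine Finset.sum_le_sum ?_
            intro i hi
            exact hND (A I i) (hAi i (Finset.mem_range.1 hi)).1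
          rw [Finset.sum_const, Finset.card_range, nsmul_eq_mul] at h3
          have h4 : (s : ℝ) * (η * n) ≤ ρ / 8 * (δ ^ M * α * n) := by
            have h5 : (s : ℝ) * (η * n) ≤ s * (ρ * α * δ ^ M / (8 * s) * n) :=
              mul_le_mul_of_nonneg_left (mul_le_mul_of_nonneg_right hη2 hn0.le) hspos.le
            have h6 : (s : ℝ) * (ρ * α * δ ^ M / (8 * s) * n) = ρ / 8 * (δ ^ M * α * n) := by
              field_simp
            linarith
          have h5 : ρ / 8 * (δ ^ M * α * n) ≤ ρ / 8 * ((A I j).card : ℝ) :=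
            mul_le_mul_of_nonneg_left (hAi j hj).2 (by positivity)
          linarith
        have hAj0 : (A I j).Nonempty := by
          rw [← Finset.card_pos]
          have h1 : (0 : ℝ) < ((A I j).card : ℝ) :=
            lt_of_lt_of_le (by positivity) (hAi j hj).2
          exact_mod_cast h1
        have hRjn : Rj.Nonempty := by
          rw [← Finset.card_pos]
          exact_mod_cast hRj0
        have hbad : ((Rj.filter (fun w => dn (S w) (A I j) < ρ / 4)).card : ℝ) ≤
            (Rj.card : ℝ) / 4 := by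
          have h1 : δ ^ M * ((B j).card : ℝ) ≤ ((A I j).card : ℝ) := by
            refine le_trans ?_ (hI3 j hj)
            exact mul_le_mul_of_nonneg_right
              (pow_le_pow_of_le_one hδ.le hδ1 (by omega)) (Nat.cast_nonneg _)
          have h2 := (hB j hj).2.2.2 (A I j) (Finset.filter_subset _ _) h1
          have h3 : (Rj.filter (fun w => dn (S w) (A I j) < ρ / 4)).card ≤
              ((W' j).filter (fun w => dn (S w) (A I j) < ρ / 4)).card :=
            Finset.card_le_card (Finset.filter_subset_filter _ Finset.inter_subset_right)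
          have h4 : ((Rj.filter (fun w => dn (S w) (A I j) < ρ / 4)).card : ℝ) ≤
              (((W' j).filter (fun w => dn (S w) (A I j) < ρ / 4)).card : ℝ) := by
            exact_mod_cast h3
          have h5 : ε / (8 * s) * (W.card : ℝ) = ε / (2 * s) * (W.card : ℝ) / 4 := by
            field_simp
            ring
          rw [h5] at h2
          linarith
        obtain ⟨z, hzA, hzF, hz⟩ := hit_count hρ (A I j) F Rj S hAj0 hRjn hF hbad
        have hzI : ∀ a ∈ I, ¬ Γ.Adj a z := (Finset.mem_filter.1 hzA).2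
        refine ⟨insert z I, ?_, ?_, ?_, Or.inr ?_⟩
        · intro a ha b hb
          rcases Finset.mem_insert.1 ha with rfl | ha'
          · rcases Finset.mem_insert.1 hb with rfl | hb'
            · exact fun h => h.ne rfl
            · exact fun h => hzI b hb' h.symm
          · rcases Finset.mem_insert.1 hb with rfl | hb'
            · exact hzI a ha'
            · exact hI1 a ha' b hb'
        · intro a ha
          rcases Finset.mem_insert.1 ha with rfl | ha'
          · have h1 : 0 < (Rj.filter (fun w => a ∈ S w)).card := by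
              have h2 : (0 : ℝ) < ((Rj.filter (fun w => a ∈ S w)).card : ℝ) :=
                lt_of_lt_of_le (by positivity) hz
              exact_mod_cast h2
            obtain ⟨w, hw⟩ := Finset.card_pos.1 h1
            obtain ⟨hw1, hw2⟩ := Finset.mem_filter.1 hw
            exact ⟨w, (Finset.mem_filter.1 (Finset.mem_filter.1
              (Finset.mem_inter.1 hw1).1).1).1, hw2⟩
          · exact hI2 a ha'
        · intro i hi
          have h1 : A (insert z I) i = (A I i).filter (fun w => ¬ Γ.Adj z w) := by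
            ext x
            simp only [A, Finset.mem_filter, Finset.mem_insert, forall_eq_or_imp]
            tauto
          have h2 : ¬ ((((A I i).filter (fun w => ¬ Γ.Adj z w)).card : ℝ) <
              δ * ((A I i).card : ℝ)) := by
            intro h3
            refine hzF (Finset.mem_biUnion.2 ⟨i, Finset.mem_range.2 hi, ?_⟩)
            exact Finset.mem_filter.2 ⟨Finset.mem_univ _, h3⟩
          rw [h1]
          have h3 := hI3 i hi
          calc δ ^ (t + 1) * ((B i).card : ℝ) = δ * (δ ^ t * ((B i).card : ℝ)) := by ring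
            _ ≤ δ * ((A I i).card : ℝ) := mul_le_mul_of_nonneg_left h3 hδ.le
            _ ≤ _ := not_lt.1 h2
        · have h1 : R (insert z I) ⊆ (R I) \ (Rj.filter (fun w => z ∈ S w)) := by
            intro w hw
            obtain ⟨hw1, hw2⟩ := Finset.mem_filter.1 hw
            refine Finset.mem_sdiff.2 ⟨Finset.mem_filter.2 ⟨hw1, fun a ha =>
              hw2 a (Finset.mem_insert_of_mem ha)⟩, ?_⟩
            intro h2
            exact hw2 z (Finset.mem_insert_self _ _) (Finset.mem_filter.1 h2).2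
          have h2 : ((R I) \ (Rj.filter (fun w => z ∈ S w))).card +
              (Rj.filter (fun w => z ∈ S w)).card = (R I).card :=
            Finset.card_sdiff_add_card_eq_card
              ((Finset.filter_subset _ _).trans Finset.inter_subset_left)
          have h3 : ((R (insert z I)).card : ℝ) + ((Rj.filter (fun w => z ∈ S w)).card : ℝ) ≤
              ((R I).card : ℝ) := by
            have h4 := Finset.card_le_card h1
            have h5 : (R (insert z I)).card + (Rj.filter (fun w => z ∈ S w)).card ≤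
                (R I).card := by omega
            exact_mod_cast h5
          have h4 : ρ / (16 * s) * ((R I).card : ℝ) ≤ ρ / 16 * (Rj.card : ℝ) := by
            have h5 : ρ / (16 * s) * ((R I).card : ℝ) = ρ / 16 * (((R I).card : ℝ) / s) := by
              field_simp
            rw [h5]
            exact mul_le_mul_of_nonneg_left hRj (by positivity)
          have h5 : ((R (insert z I)).card : ℝ) ≤ (1 - ρ / (16 * s)) * ((R I).card : ℝ) := by
            linarith
          calc ((R (insert z I)).card : ℝ) ≤ (1 - ρ / (16 * s)) * ((R I).card : ℝ) := h5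
            _ ≤ (1 - ρ / (16 * s)) * ((1 - ρ / (16 * s)) ^ t * (W.card : ℝ)) :=
              mul_le_mul_of_nonneg_left hR' hp0
            _ = (1 - ρ / (16 * s)) ^ (t + 1) * (W.card : ℝ) := by ring
  obtain ⟨I, hI1, hI2, _, hI4⟩ := key M le_rfl
  refine ⟨I, hI1, hI2, ?_⟩
  have hW0 : (0 : ℝ) ≤ (W.card : ℝ) := Nat.cast_nonneg _
  have hRI : ((R I).card : ℝ) ≤ ε / 2 * (W.card : ℝ) := by
    rcases hI4 with h | h
    · exact h
    · exact h.trans (mul_le_mul_of_nonneg_right hM.le hW0)
  have h1 : W.filter (fun w => ∀ a ∈ I, a ∉ S w) ⊆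
      (R I) ∪ W.filter (fun w => ∀ i, i < s → w ∉ W' i) := by
    intro w hw
    obtain ⟨hw1, hw2⟩ := Finset.mem_filter.1 hw
    by_cases h : ∃ i, i < s ∧ w ∈ W' i
    · exact Finset.mem_union_left _ (Finset.mem_filter.2 ⟨Finset.mem_filter.2 ⟨hw1, h⟩, hw2⟩)
    · push Not at h
      exact Finset.mem_union_right _ (Finset.mem_filter.2 ⟨hw1, h⟩)
  have h2 : (W.filter (fun w => ∀ a ∈ I, a ∉ S w)).card ≤
      (R I).card + (W.filter (fun w => ∀ i, i < s → w ∉ W' i)).card :=
    (Finset.card_le_card h1).trans (Finset.card_union_le _ _)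
  have h3 : ((W.filter (fun w => ∀ a ∈ I, a ∉ S w)).card : ℝ) ≤
      ((R I).card : ℝ) + ((W.filter (fun w => ∀ i, i < s → w ∉ W' i)).card : ℝ) := by
    exact_mod_cast h2
  have h4 : (1 - ρ ^ 2 / 2) ^ s * (W.card : ℝ) ≤ ε / 2 * (W.card : ℝ) :=
    mul_le_mul_of_nonneg_right hs hW0
  have h5 : (W.card : ℝ) ≤ n := by
    rw [hn]
    exact_mod_cast Finset.card_le_univ W
  have h6 : ε * (W.card : ℝ) ≤ ε * n := mul_le_mul_of_nonneg_left h5 hε.le
  linarith

end Pool.Agent.Lib.MP_23961f_co.DP
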