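import Pool.Agent.Lib.MP_23961f_co.DP.OneSide
import Pool.Agent.Lib.MP_23961f_co.DP.Gain
import Pool.Agent.Lib.MP_23961f_co.DP.Core

/-!
Main theorem: the complement inequality for large graphs without sparse or dense pairs.
-/

set_option autoImplicit false

namespace Pool.Agent.Lib.MP_23961f_co.DP

open Pool.Agent.Lib.MP_23961f_co.K

open Classical in
/-- any two disjoint sets of at least `η n` vertices have density at least `δ` -/
def NoSparse {V : Type} [Fintype V] (G : SimpleGraph V) (η δ : ℝ) : Prop :=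
  ∀ X Y : Finset V, Disjoint X Y → η * (Fintype.card V : ℝ) ≤ (X.card : ℝ) →
    η * (Fintype.card V : ℝ) ≤ (Y.card : ℝ) → δ * ((X.card : ℝ) * (Y.card : ℝ)) ≤ (ed G X Y : ℝ)

theorem NoSparse.mono {V : Type} [Fintype V] {G : SimpleGraph V} {η η' δ : ℝ}
    (h : NoSparse G η' δ) (hle : η' ≤ η) : NoSparse G η δ := by
  have h0 : (0 : ℝ) ≤ (Fintype.card V : ℝ) := Nat.cast_nonneg _
  intro X Y hXY hX hY
  have h1 : η' * (Fintype.card V : ℝ) ≤ η * (Fintype.card V : ℝ) :=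
    mul_le_mul_of_nonneg_right hle h0
  exact h X Y hXY (h1.trans hX) (h1.trans hY)

theorem nd_of_noSparse {V : Type} [Fintype V] {G : SimpleGraph V} {η δ : ℝ} (hη : 0 < η)
    (hδ : 0 < δ) (hδ1 : δ ≤ 1) (hn : 2 ≤ η / 3 * (Fintype.card V : ℝ))
    (h : NoSparse G (η / 3) δ) : ND Gᶜ η (δ / 2) := by
  have h0 : (0 : ℝ) ≤ (Fintype.card V : ℝ) := Nat.cast_nonneg _
  have h5 : ND Gᶜ (3 * (η / 3)) (δ / 2) := by
    refine nd_of_density (by positivity) hδ hδ1 Gᶜ hn ?_
    intro X Y hXY hX hY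
    have h2 := h X Y hXY hX hY
    have h3 := ed_compl G hXY
    have h4 : (ed Gᶜ X Y : ℝ) + (ed G X Y : ℝ) = (X.card : ℝ) * (Y.card : ℝ) := by
      exact_mod_cast h3
    linarith
  rwa [mul_div_cancel₀ η (by norm_num : (3 : ℝ) ≠ 0)] at h5

open Classical in
/-- degrees inside a set with large minimum degree in the complement -/
theorem dg_ind {V : Type} [Fintype V] {G H : SimpleGraph V}
    (hH : ∀ v w, H.Adj v w → ¬ G.Adj v w) (U : Finset V) (k : ℕ)
    (hk : ∀ v ∈ U, k ≤ (U.filter (fun w => H.Adj v w)).card) (v : V) :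
    dg (ind G U) v ≤ U.card - (k + 1) := by
  unfold dg
  by_cases hv : v ∈ U
  · have h1 : Finset.univ.filter (fun w => (ind G U).Adj v w) ⊆
        (U.erase v) \ (U.filter (fun w => H.Adj v w)) := by
      intro w hw
      obtain ⟨h2, h3, h4⟩ := (Finset.mem_filter.1 hw).2
      refine Finset.mem_sdiff.2 ⟨Finset.mem_erase.2 ⟨h2.ne', h4⟩, ?_⟩
      intro h6
      exact hH v w (Finset.mem_filter.1 h6).2 h2
    have h2 := Finset.card_le_card h1
    have h3 : U.filter (fun w => H.Adj v w) ⊆ U.erase v := by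
      intro w hw
      obtain ⟨h3, h4⟩ := Finset.mem_filter.1 hw
      exact Finset.mem_erase.2 ⟨h4.ne', h3⟩
    rw [Finset.card_sdiff_of_subset h3, Finset.card_erase_of_mem hv] at h2
    have h4 := hk v hv
    omega
  · have h1 : Finset.univ.filter (fun w => (ind G U).Adj v w) = ∅ := by
      ext w
      simp only [Finset.mem_filter, Finset.mem_univ, true_and, Finset.notMem_empty, iff_false]
      rintro ⟨_, h2, _⟩
      exact hv h2
    rw [h1]
    simp

open Classical in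
theorem card_le_of_core {V : Type} [Fintype V] {H : SimpleGraph V} (U : Finset V) (k : ℕ)
    (hU : U.Nonempty) (hk : ∀ v ∈ U, k ≤ (U.filter (fun w => H.Adj v w)).card) :
    k + 1 ≤ U.card := by
  obtain ⟨v, hv⟩ := hU
  have h1 := hk v hv
  have h3 : U.filter (fun w => H.Adj v w) ⊆ U.erase v := by
    intro w hw
    obtain ⟨h3, h4⟩ := Finset.mem_filter.1 hw
    exact Finset.mem_erase.2 ⟨h4.ne', h3⟩
  have h4 := Finset.card_le_card h3
  rw [Finset.card_erase_of_mem hv] at h4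
  have h5 : 0 < U.card := Finset.card_pos.2 ⟨v, hv⟩
  omega

theorem kill_of_indU {V : Type} [Fintype V] {G : SimpleGraph V} {U : Finset V} {r : ℕ}
    (h : Kill r (ind G U)) : Kill (r + (Fintype.card V - U.card)) G := by
  classical
  have h1 := kill_of_ind Uᶜ r G (by rwa [compl_compl])
  rwa [Finset.card_compl] at h1

theorem nul_left {V : Type} [Fintype V] {G : SimpleGraph V} {r : ℕ} (h : Kill r Gᶜ) :
    Nul G (Fintype.card V - (r + 1)) := by
  have h1 := nul_of_kill h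
  rwa [compl_compl] at h1

/-- One-sided version. -/
theorem sum_of_noSparse {δ ε : ℝ} (hδ : 0 < δ) (hδ1 : δ ≤ 1) (hε : 0 < ε) :
    ∃ η : ℝ, 0 < η ∧ ∃ n₀ : ℕ, ∀ (V : Type) [Fintype V] (G : SimpleGraph V),
      n₀ ≤ Fintype.card V → NoSparse G η δ →
      ∃ a b : ℕ, Nul G a ∧ Nul Gᶜ b ∧ (1 - ε) * (Fintype.card V : ℝ) ≤ (a : ℝ) + (b : ℝ) := by
  classical
  obtain ⟨η₁, hη₁, H1⟩ := kill_degen (δ := δ / 2) (ε := ε / 2) (by positivity) (by linarith)
    (by positivity)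
  refine ⟨η₁ / 3, by positivity, max (⌈6 / η₁⌉₊) (max 1 ⌈2 / ε⌉₊), ?_⟩
  intro V _ G hn hG
  have hn1 : (6 / η₁ : ℝ) ≤ (Fintype.card V : ℝ) :=
    (Nat.le_ceil _).trans (by exact_mod_cast (le_max_left _ _).trans hn)
  have hn2 : 1 ≤ Fintype.card V := (le_max_left _ _).trans ((le_max_right _ _).trans hn)
  have hn3 : (2 / ε : ℝ) ≤ (Fintype.card V : ℝ) :=
    (Nat.le_ceil _).trans (by exact_mod_cast (le_max_right _ _).trans ((le_max_right _ _).trans hn))
  have : Nonempty V := Fintype.card_pos_iff.1 (by omega)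
  have hn1' : 2 ≤ η₁ / 3 * (Fintype.card V : ℝ) := by
    rw [div_le_iff₀ hη₁] at hn1
    linarith
  have hn3' : 2 ≤ ε * (Fintype.card V : ℝ) := by
    rw [div_le_iff₀ hε] at hn3
    linarith
  have hND := nd_of_noSparse hη₁ hδ hδ1 hn1' hG
  obtain ⟨k, U, o, hU, ho, hUk, hbk⟩ := exists_core Gᶜ
  have hGc : ∀ v w, Gᶜ.Adj v w → ¬ G.Adj v w := fun v w h => ((SimpleGraph.compl_adj _ _ _).1 h).2
  obtain ⟨r, hr, hK⟩ := H1 V Gᶜ o k hND ho hbk
  have hUk' := card_le_of_core U k hU hUk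
  have hUn := Finset.card_le_univ U
  have hK2 : Kill (U.card - (k + 1)) (ind G U) :=
    kill_of_degree _ _ ∅ (by simp) (fun v _ => dg_ind hGc U k hUk v)
  have hK3 := nul_of_kill (kill_of_indU hK2)
  refine ⟨_, _, nul_left hK, hK3, ?_⟩
  have h1 : (Fintype.card V : ℝ) - (r + 1) ≤ ((Fintype.card V - (r + 1) : ℕ) : ℝ) := by
    have : Fintype.card V ≤ (Fintype.card V - (r + 1)) + (r + 1) := by omega
    have h2 : (Fintype.card V : ℝ) ≤ ((Fintype.card V - (r + 1) : ℕ) : ℝ) + ((r : ℝ) + 1) := by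
      exact_mod_cast this
    linarith
  have h2 : (k : ℝ) ≤
      ((Fintype.card V - (U.card - (k + 1) + (Fintype.card V - U.card) + 1) : ℕ) : ℝ) := by
    have : k ≤ Fintype.card V - (U.card - (k + 1) + (Fintype.card V - U.card) + 1) := by omega
    exact_mod_cast this
  nlinarith

/-- Two-sided version. -/
theorem sum_of_noPairs {δ : ℝ} (hδ : 0 < δ) (hδ1 : δ ≤ 1) :
    ∃ c : ℝ, 0 < c ∧ ∃ η : ℝ, 0 < η ∧ ∃ n₀ : ℕ, ∀ (V : Type) [Fintype V] (G : SimpleGraph V),
      n₀ ≤ Fintype.card V → NoSparse G η δ → NoSparse Gᶜ η δ →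
      ∃ a b : ℕ, Nul G a ∧ Nul Gᶜ b ∧ (1 + c) * (Fintype.card V : ℝ) ≤ (a : ℝ) + (b : ℝ) := by
  classical
  obtain ⟨c, hc, η₂, hη₂, n₂, H2⟩ := kill_gain (δ := δ / 2) (ρ₀ := δ * (δ / 9) / 3)
    (by positivity) (by linarith) (by positivity) (by nlinarith)
  obtain ⟨η₁, hη₁, H1⟩ := kill_degen (δ := δ / 2) (ε := c / 4) (by positivity) (by linarith)
    (by positivity)
  set η := min (min (η₁ / 3) (η₂ / 3)) (min (δ / 27) (1 / 3)) with hη
  have hη0 : 0 < η := by
    rw [hη]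
    refine lt_min (lt_min (by positivity) (by positivity)) (lt_min (by positivity) (by norm_num))
  have hη1 : η ≤ η₁ / 3 := (min_le_left _ _).trans (min_le_left _ _)
  have hη2 : η ≤ η₂ / 3 := (min_le_left _ _).trans (min_le_right _ _)
  have hη3 : η ≤ δ / 27 := (min_le_right _ _).trans (min_le_left _ _)
  have hη4 : η ≤ 1 / 3 := (min_le_right _ _).trans (min_le_right _ _)
  refine ⟨c / 2, by positivity, η, hη0,
    max n₂ (max ⌈2 / η⌉₊ (max 6 ⌈4 / c⌉₊)), ?_⟩
  intro V _ G hn hG1 hG2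
  have hnn : n₂ ≤ Fintype.card V := (le_max_left _ _).trans hn
  have hn' := (le_max_right _ _).trans hn
  have hn1 : (2 / η : ℝ) ≤ (Fintype.card V : ℝ) :=
    (Nat.le_ceil _).trans (by exact_mod_cast (le_max_left _ _).trans hn')
  have hn'' := (le_max_right _ _).trans hn'
  have hn2 : 6 ≤ Fintype.card V := (le_max_left _ _).trans hn''
  have hn3 : (4 / c : ℝ) ≤ (Fintype.card V : ℝ) :=
    (Nat.le_ceil _).trans (by exact_mod_cast (le_max_right _ _).trans hn'')
  set N : ℝ := (Fintype.card V : ℝ) with hN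
  have hN0 : 0 ≤ N := Nat.cast_nonneg _
  have : Nonempty V := Fintype.card_pos_iff.1 (by omega)
  have hn1' : 2 ≤ η * N := by
    rw [div_le_iff₀ hη0] at hn1
    linarith
  have hn3' : 4 ≤ c * N := by
    rw [div_le_iff₀ hc] at hn3
    linarith
  have hND1 := nd_of_noSparse hη₁ hδ hδ1 (hn1'.trans (mul_le_mul_of_nonneg_right hη1 hN0))
    (hG1.mono hη1)
  have hND2 := nd_of_noSparse hη₂ hδ hδ1 (hn1'.trans (mul_le_mul_of_nonneg_right hη2 hN0))
    (hG2.mono hη2)
  rw [compl_compl] at hND2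
  obtain ⟨k, U, o, hU, ho, hUk, hbk⟩ := exists_core Gᶜ
  have hGc : ∀ v w, Gᶜ.Adj v w → ¬ G.Adj v w := fun v w h => ((SimpleGraph.compl_adj _ _ _).1 h).2
  obtain ⟨r, hr, hK⟩ := H1 V Gᶜ o k hND1 ho hbk
  have hUk' := card_le_of_core U k hU hUk
  have hUn := Finset.card_le_univ U
  -- the core is large
  have hk1 : δ / 9 * N ≤ (k : ℝ) := core_large hη0 hη4 hδ Gᶜ hn2 hG2 ho hbk
  have hUc : δ / 9 * N ≤ (U.card : ℝ) := by
    have : (k : ℝ) ≤ (U.card : ℝ) := by exact_mod_cast (by omega : k ≤ U.card)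
    linarith
  obtain ⟨v, hvU, hv⟩ := large_degree hη0 hδ (by positivity : 0 < δ / 9) (by linarith) G
    (by
      have h1 : 3 * (η * N) ≤ δ / 9 * N := by nlinarith
      linarith) hG1 U hUc
  have hdv := dg_ind hGc U k hUk v
  have hvD : (U.filter (fun w => G.Adj v w)).card ≤ U.card - (k + 1) := by
    refine le_trans (Finset.card_le_card ?_) hdv
    intro w hw
    obtain ⟨h1, h2⟩ := Finset.mem_filter.1 hw
    exact Finset.mem_filter.2 ⟨Finset.mem_univ _, h2, hvU, h1⟩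
  have hD : δ * (δ / 9) / 3 * N ≤ ((U.card - (k + 1) : ℕ) : ℝ) := by
    refine hv.trans ?_
    exact_mod_cast hvD
  obtain ⟨s, hs, hKs⟩ := H2 V (ind G U) (U.card - (k + 1)) hnn
    (hND2.mono (fun _ _ h => h.1)) hD (fun v => dg_ind hGc U k hUk v)
  have hK3 := nul_of_kill (kill_of_indU hKs)
  refine ⟨_, _, nul_left hK, hK3, ?_⟩
  have h1 : N - (r + 1) ≤ ((Fintype.card V - (r + 1) : ℕ) : ℝ) := by
    have : Fintype.card V ≤ (Fintype.card V - (r + 1)) + (r + 1) := by omega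
    have h2 : N ≤ ((Fintype.card V - (r + 1) : ℕ) : ℝ) + ((r : ℝ) + 1) := by
      rw [hN]
      exact_mod_cast this
    linarith
  have h2 : (k : ℝ) + c * N ≤
      ((Fintype.card V - (s + (Fintype.card V - U.card) + 1) : ℕ) : ℝ) := by
    have h3 : U.card ≤ (Fintype.card V - (s + (Fintype.card V - U.card) + 1)) + s + 1 := by
      omega
    have h4 : (U.card : ℝ) ≤
        ((Fintype.card V - (s + (Fintype.card V - U.card) + 1) : ℕ) : ℝ) + (s : ℝ) + 1 := by
      exact_mod_cast h3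
    have h5 : (U.card - (k + 1)) + (k + 1) = U.card := by omega
    have h6 : ((U.card - (k + 1) : ℕ) : ℝ) + ((k : ℝ) + 1) = (U.card : ℝ) := by
      exact_mod_cast h5
    linarith
  nlinarith

end Pool.Agent.Lib.MP_23961f_co.DP
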