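import Pool.Agent.Lib.MP_23961f_co.DP.Hit
import Pool.Agent.Lib.MP_23961f_co.DP.Degen2

/-!
A graph without dense pairs with back-degrees at most `k` can be emptied by `k + ε n` rounds.
-/

set_option autoImplicit false

namespace Pool.Agent.Lib.MP_23961f_co.DP

open Pool.Agent.Lib.MP_23961f_co.K

open Classical in
/-- The first `t ≤ k` rounds: `u w` counts the rounds which have missed `w`. -/
theorem one_rounds {ρ ε' : ℝ} (V : Type) [Fintype V] (Γ : SimpleGraph V) (o : V → ℕ) (k : ℕ)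
    (hhit : ∀ Γ' : SimpleGraph V, Γ' ≤ Γ → ∀ (W : Finset V) (S : V → Finset V),
      (∀ w ∈ W, ρ * (Fintype.card V : ℝ) ≤ ((S w).card : ℝ)) →
      ∃ I : Finset V, (∀ a ∈ I, ∀ b ∈ I, ¬ Γ'.Adj a b) ∧
        ((W.filter (fun w => ∀ a ∈ I, a ∉ S w)).card : ℝ) ≤ ε' * (Fintype.card V : ℝ))
    (hk : ∀ v, (bk Γ o v).card ≤ k) (t : ℕ) :
    ∃ (Γ' : SimpleGraph V) (u : V → ℕ), Rd t Γ Γ' ∧
      ((∑ w, u w : ℕ) : ℝ) ≤ t * (ε' * (Fintype.card V : ℝ)) ∧
      ∀ w, ((bk Γ' o w).card : ℝ) ≤ ρ * (Fintype.card V : ℝ) ∨ (bk Γ' o w).card + t ≤ k + u w := by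
  induction t with
  | zero =>
    refine ⟨Γ, fun _ => 0, rfl, ?_, fun w => Or.inr (hk w)⟩
    rw [Finset.sum_const_zero]
    simp
  | succ t ih =>
    obtain ⟨Γ', u, hRd, hsum, hinv⟩ := ih
    let W : Finset V :=
      Finset.univ.filter (fun w => ρ * (Fintype.card V : ℝ) ≤ ((bk Γ' o w).card : ℝ))
    obtain ⟨I, hI, hmiss⟩ := hhit Γ' hRd.le W (fun w => bk Γ' o w)
      (fun w hw => (Finset.mem_filter.1 hw).2)
    let M : Finset V := W.filter (fun w => ∀ a ∈ I, a ∉ bk Γ' o w)
    have hM : (M.card : ℝ) ≤ ε' * (Fintype.card V : ℝ) := hmiss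
    have hpw : (srt o I).Pairwise (fun a b => ¬ Γ'.Adj a b) := by
      refine List.pairwise_of_forall_mem_list (r := fun a b => ¬ Γ'.Adj a b) ?_
      intro a ha b hb
      exact hI a (mem_srt.1 ha) b (mem_srt.1 hb)
    refine ⟨roundL Γ' (srt o I), fun w => u w + if w ∈ M then 1 else 0, hRd.snoc hpw, ?_, ?_⟩
    · have h1 : (∑ w : V, (u w + if w ∈ M then 1 else 0)) = (∑ w : V, u w) + M.card := by
        rw [Finset.sum_add_distrib]
        have h2 : (Finset.univ.filter (fun w : V => w ∈ M)) = M := by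
          ext w
          simp
        rw [Finset.sum_boole, h2, Nat.cast_id]
      rw [h1]
      push_cast
      push_cast at hsum
      linarith
    · intro w
      have hle := bk_round_le Γ' o (srt o I) w
      rcases hinv w with h1 | h1
      · left
        refine le_trans ?_ h1
        exact_mod_cast hle
      · by_cases hw : w ∈ W
        · right
          by_cases hwM : w ∈ M
          · show (bk (roundL Γ' (srt o I)) o w).card + (t + 1) ≤ k + (u w + if w ∈ M then 1 else 0)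
            rw [if_pos hwM]
            omega
          · have h2 : ∃ a ∈ I, a ∈ bk Γ' o w := by
              by_contra hno
              push Not at hno
              exact hwM (Finset.mem_filter.2 ⟨hw, hno⟩)
            obtain ⟨a, haI, ha⟩ := h2
            obtain ⟨h3, h4⟩ := mem_bk.1 ha
            have h5 := bk_round haI h3 h4
            show (bk (roundL Γ' (srt o I)) o w).card + (t + 1) ≤ k + (u w + if w ∈ M then 1 else 0)
            rw [if_neg hwM]
            omega
        · left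
          have h2 : ((bk Γ' o w).card : ℝ) < ρ * (Fintype.card V : ℝ) := by
            by_contra hno
            exact hw (Finset.mem_filter.2 ⟨Finset.mem_univ _, not_lt.1 hno⟩)
          have h3 : ((bk (roundL Γ' (srt o I)) o w).card : ℝ) ≤ ((bk Γ' o w).card : ℝ) := by
            exact_mod_cast hle
          linarith

open Classical in
/-- The earlier neighbours in `ind Γ Wᶜ`. -/
theorem one_bk_ind {V : Type} [Fintype V] (Γ : SimpleGraph V) (o : V → ℕ) (W : Finset V) {m : ℕ}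
    (h : ∀ w, w ∉ W → (bk Γ o w).card ≤ m) (v : V) : (bk (ind Γ Wᶜ) o v).card ≤ m := by
  by_cases hv : v ∈ W
  · have h1 : bk (ind Γ Wᶜ) o v = ∅ := by
      refine Finset.eq_empty_of_forall_notMem (fun w hw => ?_)
      obtain ⟨⟨_, h2, _⟩, _⟩ := mem_bk.1 hw
      exact (Finset.mem_compl.1 h2) hv
    rw [h1, Finset.card_empty]
    exact Nat.zero_le _
  · refine le_trans (Finset.card_le_card ?_) (h v hv)
    intro w hw
    obtain ⟨h1, h2⟩ := mem_bk.1 hw
    exact mem_bk.2 ⟨h1.1, h2⟩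

open Classical in
theorem kill_degen {δ ε : ℝ} (hδ : 0 < δ) (hδ1 : δ ≤ 1) (hε : 0 < ε) :
    ∃ η : ℝ, 0 < η ∧ ∀ (V : Type) [Fintype V] (Γ : SimpleGraph V) (o : V → ℕ) (k : ℕ),
      ND Γ η δ → Function.Injective o → (∀ v, (bk Γ o v).card ≤ k) →
      ∃ r : ℕ, (r : ℝ) ≤ k + ε * (Fintype.card V : ℝ) ∧ Kill r Γ := by
  have hε1 : 0 < min ε 1 := lt_min hε one_pos
  obtain ⟨e, he⟩ : ∃ e : ℝ, e = min ε 1 := ⟨_, rfl⟩
  rw [← he] at hε1
  have hee : e ≤ ε := he ▸ min_le_left _ _
  have he1 : e ≤ 1 := he ▸ min_le_right _ _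
  obtain ⟨η, hη, hhit⟩ := exists_hit (δ := δ) (ρ := e / 4) (ε := e ^ 2 / 16) hδ hδ1
    (by positivity) (by linarith) (by positivity)
  refine ⟨η, hη, ?_⟩
  intro V _ Γ o k hND ho hk
  have hn0 : (0 : ℝ) ≤ (Fintype.card V : ℝ) := Nat.cast_nonneg _
  rcases Nat.lt_or_ge k (Fintype.card V) with hkn | hkn
  · obtain ⟨Γ', u, hRd, hsum, hinv⟩ := one_rounds (ρ := e / 4) (ε' := e ^ 2 / 16) V Γ o k (by
      intro Γ' hΓ' W S hS
      obtain ⟨I, h1, _, h3⟩ := hhit V Γ' W S (hND.mono hΓ') hS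
      exact ⟨I, h1, h3⟩) hk k
    have hnpos : (0 : ℝ) < (Fintype.card V : ℝ) := by
      have : 0 < Fintype.card V := lt_of_le_of_lt (Nat.zero_le _) hkn
      exact_mod_cast this
    have hknR : (k : ℝ) ≤ (Fintype.card V : ℝ) := by exact_mod_cast hkn.le
    let W : Finset V := Finset.univ.filter (fun w => e / 4 * (Fintype.card V : ℝ) < (u w : ℝ))
    have hW : (W.card : ℝ) ≤ e / 4 * (Fintype.card V : ℝ) := by
      have h1 : (W.card : ℝ) * (e / 4 * (Fintype.card V : ℝ)) ≤ ((∑ w, u w : ℕ) : ℝ) := by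
        calc (W.card : ℝ) * (e / 4 * (Fintype.card V : ℝ))
            = ∑ _w ∈ W, (e / 4 * (Fintype.card V : ℝ)) := by
              rw [Finset.sum_const, nsmul_eq_mul]
          _ ≤ ∑ w ∈ W, (u w : ℝ) := by
              refine Finset.sum_le_sum (fun w hw => ?_)
              exact (Finset.mem_filter.1 hw).2.le
          _ ≤ ∑ w : V, (u w : ℝ) := by
              refine Finset.sum_le_sum_of_subset_of_nonneg (Finset.subset_univ _) ?_
              intro w _ _
              exact Nat.cast_nonneg _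
          _ = ((∑ w, u w : ℕ) : ℝ) := by
              push_cast
              rfl
      have h2 : (k : ℝ) * (e ^ 2 / 16 * (Fintype.card V : ℝ)) ≤
          (e / 4 * (Fintype.card V : ℝ)) * (e / 4 * (Fintype.card V : ℝ)) := by
        have h3 : (k : ℝ) * (e ^ 2 / 16 * (Fintype.card V : ℝ)) ≤
            (Fintype.card V : ℝ) * (e ^ 2 / 16 * (Fintype.card V : ℝ)) :=
          mul_le_mul_of_nonneg_right hknR (by positivity)
        calc (k : ℝ) * (e ^ 2 / 16 * (Fintype.card V : ℝ))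
            ≤ (Fintype.card V : ℝ) * (e ^ 2 / 16 * (Fintype.card V : ℝ)) := h3
          _ = (e / 4 * (Fintype.card V : ℝ)) * (e / 4 * (Fintype.card V : ℝ)) := by ring
      have h4 : (0 : ℝ) < e / 4 * (Fintype.card V : ℝ) := by positivity
      exact le_of_mul_le_mul_right (h1.trans (hsum.trans h2)) h4
    have hm : ∀ w, w ∉ W → (bk Γ' o w).card ≤ ⌊e / 4 * (Fintype.card V : ℝ)⌋₊ := by
      intro w hw
      refine Nat.le_floor ?_
      have h1 : (u w : ℝ) ≤ e / 4 * (Fintype.card V : ℝ) := by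
        by_contra hno
        exact hw (Finset.mem_filter.2 ⟨Finset.mem_univ _, not_le.1 hno⟩)
      rcases hinv w with h2 | h2
      · exact h2
      · have h3 : (bk Γ' o w).card ≤ u w := by omega
        have h4 : ((bk Γ' o w).card : ℝ) ≤ (u w : ℝ) := by exact_mod_cast h3
        exact h4.trans h1
    have hK1 : Kill (2 * ⌊e / 4 * (Fintype.card V : ℝ)⌋₊) (ind Γ' Wᶜ) :=
      kill_of_order ho (one_bk_ind Γ' o W hm)
    have hK2 := hRd.kill (kill_of_ind W _ Γ' hK1)
    refine ⟨_, ?_, hK2⟩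
    have h5 : ((⌊e / 4 * (Fintype.card V : ℝ)⌋₊ : ℕ) : ℝ) ≤ e / 4 * (Fintype.card V : ℝ) :=
      Nat.floor_le (by positivity)
    have h6 : e * (Fintype.card V : ℝ) ≤ ε * (Fintype.card V : ℝ) :=
      mul_le_mul_of_nonneg_right hee hn0
    push_cast
    nlinarith
  · refine ⟨Fintype.card V, ?_, ?_⟩
    · have h1 : ((Fintype.card V : ℕ) : ℝ) ≤ (k : ℝ) := by exact_mod_cast hkn
      have h2 : 0 ≤ ε * (Fintype.card V : ℝ) := by positivity
      linarith
    · refine kill_of_degree _ Γ ∅ (by simp) (fun v _ => ?_)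
      unfold dg
      exact Finset.card_le_univ _

end Pool.Agent.Lib.MP_23961f_co.DP
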